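import Pool.Agent.Helper94.LK.Defs

/-!
MP_e4073d_mp : statements of the parts. Deliver `theorem xxx_thm (h : S_YYY) .. : S_XXX`.
All integrals are w.r.t. `volume`.
-/

open MeasureTheory Filter Topology Set
open scoped ENNReal InnerProductSpace SchwartzMap ComplexConjugate

namespace Pool.Agent.Helper94.LK

/-! ## A. the kernel `kap` -/

/-- part K1 : basic facts on `kap` (Tonelli + Gaussian integrals). -/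
structure S_K1 : Prop where
  meas : Measurable kap
  nonneg : ∀ r, 0 ≤ kap r
  pos : ∀ r, 0 < r → 0 < kap r
  anti : StrictAntiOn kap (Ioi 0)
  cont : ContinuousOn kap (Ioi 0)

/-- part K2 : moments -/
structure S_K2 : Prop where
  int0 : Integrable (fun u : ℝ => kap |u|)
  val0 : ∫ u : ℝ, kap |u| = 1 / 2
  int2 : Integrable (fun u : ℝ => u ^ 2 * kap |u|)
  val2 : ∫ u : ℝ, u ^ 2 * kap |u| = 1 / 2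

/-- part K3 : decay and square integrability -/
structure S_K3 : Prop where
  tend : Tendsto kap atTop (𝓝 0)
  intsq : IntegrableOn (fun u : ℝ => u * kap u ^ 2) (Ioi 0)

/-! ## B. kernel operators on `L²(ℝ)` -/

/-- part SCH : Schur test -/
def S_SCH : Prop := ∀ (G : ℝ → ℝ → ℝ) (M : ℝ), 0 ≤ M → Measurable (Function.uncurry G) →
  (∀ s s', 0 ≤ G s s') → (∀ s s', G s s' = G s' s) →
  (∀ s, ∫⁻ s', ENNReal.ofReal (G s s') ≤ ENNReal.ofReal M) → KerBdd G M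

/-- part HSB : square integrable kernels are bounded -/
def S_HSB : Prop := ∀ (E : ℝ → ℝ → ℝ), Measurable (Function.uncurry E) →
  Integrable (fun z : ℝ × ℝ => E z.1 z.2 ^ 2) → KerBdd E √(∫ z : ℝ × ℝ, E z.1 z.2 ^ 2)

/-- part OP : the operator of a bounded kernel form -/
def S_OP : Prop := ∀ (G : ℝ → ℝ → ℝ) (M : ℝ), KerBdd G M →
  ∃ T : X →L[ℝ] X, ‖T‖ ≤ M ∧ ∀ f h : X, ⟪T f, h⟫_ℝ = Bil G f h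

/-- part HSC : Hilbert-Schmidt operators are compact -/
def S_HSC : Prop := ∀ (E : ℝ → ℝ → ℝ), Measurable (Function.uncurry E) →
  Integrable (fun z : ℝ × ℝ => E z.1 z.2 ^ 2) →
  ∀ T : X →L[ℝ] X, (∀ f h : X, ⟪T f, h⟫_ℝ = Bil E f h) → IsCompactOperator T

/-! ## C. abstract Hilbert space lemmas -/

/-- part TOP : the top of the spectrum above `1/2` is an eigenvalue -/
def S_TOP : Prop := ∀ (H : Type) [NormedAddCommGroup H] [InnerProductSpace ℝ H] [CompleteSpace H]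
  (T K C : H →L[ℝ] H) (c : ℝ), (∀ f h, ⟪T f, h⟫_ℝ = ⟪f, T h⟫_ℝ) → T = K + C →
  IsCompactOperator C → (∀ f, ⟪K f, f⟫_ℝ ≤ c * ‖f‖ ^ 2) →
  ∀ μ, c < μ → (∀ f, ⟪T f, f⟫_ℝ ≤ μ * ‖f‖ ^ 2) →
    (∀ μ' < μ, ∃ f, μ' * ‖f‖ ^ 2 < ⟪T f, f⟫_ℝ) → ∃ f, f ≠ 0 ∧ T f = μ • f

/-- part CROSS : eigenvalue crossing of two norm-continuous families (uses TOP) -/
def S_CROSS : Prop := ∀ (H : Type) [NormedAddCommGroup H] [InnerProductSpace ℝ H]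
  [CompleteSpace H] (a b : ℝ), a < b → ∀ (A B KA KB CA CB : ℝ → (H →L[ℝ] H)),
  ContinuousOn A (Icc a b) → ContinuousOn B (Icc a b) →
  (∀ p ∈ Icc a b, (∀ f h, ⟪A p f, h⟫_ℝ = ⟪f, A p h⟫_ℝ) ∧ (∀ f h, ⟪B p f, h⟫_ℝ = ⟪f, B p h⟫_ℝ) ∧
    A p = KA p + CA p ∧ B p = KB p + CB p ∧ IsCompactOperator (CA p) ∧
    IsCompactOperator (CB p) ∧ (∀ f, ⟪KA p f, f⟫_ℝ ≤ 1 / 2 * ‖f‖ ^ 2) ∧
    (∀ f, ⟪KB p f, f⟫_ℝ ≤ 1 / 2 * ‖f‖ ^ 2) ∧ ∃ f, 1 / 2 * ‖f‖ ^ 2 < ⟪A p f, f⟫_ℝ) →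
  (∃ ν : ℝ, (∃ g : H, ∀ f, ⟪f, g⟫_ℝ = 0 → ⟪B b f, f⟫_ℝ ≤ ν * ‖f‖ ^ 2) ∧
    ∃ f, ν * ‖f‖ ^ 2 < ⟪A b f, f⟫_ℝ) →
  (∃ ν ν' : ℝ, ν < ν' ∧ (∀ f, ⟪A a f, f⟫_ℝ ≤ ν * ‖f‖ ^ 2) ∧ ∃ f₁ f₂ : H,
    LinearIndependent ℝ ![f₁, f₂] ∧
    ∀ x y : ℝ, ν' * ‖x • f₁ + y • f₂‖ ^ 2 ≤ ⟪B a (x • f₁ + y • f₂), x • f₁ + y • f₂⟫_ℝ) →
  ∃ p ∈ Icc a b, ∃ μ : ℝ, 1 / 2 < μ ∧ (∃ f, f ≠ 0 ∧ A p f = μ • f) ∧ ∃ f, f ≠ 0 ∧ B p f = μ • f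

/-- part GAP : simple top eigenvalue has a gap (uses TOP) -/
def S_GAP : Prop := ∀ (H : Type) [NormedAddCommGroup H] [InnerProductSpace ℝ H]
  [CompleteSpace H] (T K C : H →L[ℝ] H), (∀ f h, ⟪T f, h⟫_ℝ = ⟪f, T h⟫_ℝ) → T = K + C →
  IsCompactOperator C → (∀ f, ⟪K f, f⟫_ℝ ≤ 1 / 2 * ‖f‖ ^ 2) →
  (∃ f, 1 / 2 * ‖f‖ ^ 2 < ⟪T f, f⟫_ℝ) →
  (∀ μ, (∀ f, ⟪T f, f⟫_ℝ ≤ μ * ‖f‖ ^ 2) → ∀ u w, T u = μ • u → T w = μ • w → ⟪u, w⟫_ℝ = 0 →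
    u = 0 ∨ w = 0) →
  ∃ (v : H) (μ ν : ℝ), ‖v‖ = 1 ∧ T v = μ • v ∧ (∀ f, ⟪T f, f⟫_ℝ ≤ μ * ‖f‖ ^ 2) ∧ 1 / 2 < μ ∧
    ν < μ ∧ ∀ f, ⟪f, v⟫_ℝ = 0 → ⟪T f, f⟫_ℝ ≤ ν * ‖f‖ ^ 2

/-! ## D. geometry -/

/-- part GEO : elementary geometry of `crv p L`, `0 < p ≤ 1`, `0 < L` -/
structure S_GEO : Prop where
  lip : ∀ p L s s' : ℝ, 0 < p → p ≤ 1 → 0 < L → ‖crv p L s - crv p L s'‖ ≤ |s - s'|
  low : ∀ p L s s' : ℝ, 0 < p → p ≤ 1 → 0 < L → 4 / 5 * p * |s - s'| ≤ ‖crv p L s - crv p L s'‖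
  same : ∀ p L s s' : ℝ, 0 < p → p ≤ 1 → 0 < L → 0 ≤ s → 0 ≤ s' →
    9 / 10 * (s - s') ^ 2 ≤ ‖crv p L s - crv p L s'‖ ^ 2
  refl : ∀ p L s s' : ℝ, 0 < p → p ≤ 1 → 0 < L →
    ‖crv p L (-s) - crv p L (-s')‖ = ‖crv p L s - crv p L s'‖
  cross : ∀ p L s s' : ℝ, 0 < p → p ≤ 1 → 0 < L → 0 ≤ s → 0 ≤ s' →
    ‖crv p L s - crv p L s'‖ ≤ ‖crv p L s - crv p L (-s')‖
  arm1 : ∀ p L s s' : ℝ, 0 < p → p ≤ 1 → 0 < L → 0 ≤ s → s ≤ L → 0 ≤ s' → s' ≤ L →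
    ‖crv p L s - crv p L s'‖ = |s - s'|
  arm2 : ∀ p L s s' : ℝ, 0 < p → p ≤ 1 → 0 < L → L ≤ s → L ≤ s' →
    ‖crv p L s - crv p L s'‖ = |s - s'|
  corner : ∀ p L s s' : ℝ, 0 < p → p ≤ 1 → 0 < L → 0 ≤ s → s ≤ L → L ≤ s' →
    ‖crv p L s - crv p L s'‖ ^ 2 = (L - s) ^ 2 + (s' - L) ^ 2 + 8 / 5 * (L - s) * (s' - L)
  opp : ∀ p L s s' : ℝ, 0 < p → p ≤ 1 → 0 < L → 0 ≤ s → s ≤ L → 0 ≤ s' → s' ≤ L →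
    ‖crv p L s - crv p L (-s')‖ ^ 2 = (s - s') ^ 2 + 4 * s * s' * p ^ 2
  straight : ∀ L s s' : ℝ, 0 < L → |s| ≤ L → |s'| ≤ L → ‖crv 1 L s - crv 1 L s'‖ = |s - s'|
  bend : ∀ L s s' : ℝ, 0 < L → -L ≤ s → -L ≤ s' →
    ‖crv 1 L s - crv 1 L s'‖ = ‖bnd (s - L) - bnd (s' - L)‖
  contp : ∀ L s s' : ℝ, 0 < L → Continuous fun p : ℝ => ‖crv p L s - crv p L s'‖
  conts : ∀ p L : ℝ, 0 < p → p ≤ 1 → 0 < L → Continuous (crv p L)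
  bcont : Continuous bnd
  blip : ∀ s s' : ℝ, ‖bnd s - bnd s'‖ ≤ |s - s'|
  blow : ∀ s s' : ℝ, 9 / 10 * (s - s') ^ 2 ≤ ‖bnd s - bnd s'‖ ^ 2
  bsame : ∀ s s' : ℝ, 0 ≤ s * s' → ‖bnd s - bnd s'‖ = |s - s'|
  bopp : ∀ s s' : ℝ, s < 0 → 0 < s' → ‖bnd s - bnd s'‖ < |s - s'|

/-- part ADM : the curve satisfies the hypotheses of the problem -/
def S_ADM : Prop := ∀ p L : ℝ, 0 < p → p ≤ 1 → 0 < L → Admissible (crv p L)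

/-! ## E. kernel forms of the curves -/

/-- part KB : Schur bounds (from K1, K2, SCH, GEO): straight line, curves, one-bend curve;
`∫ kap(c|u|) du = 1/(2c)`. -/
structure S_KB : Prop where
  kS : KerBdd GS (1 / 2)
  kC : ∀ (γ : ℝ → E2) (c : ℝ), 0 < c → Continuous γ → (∀ s s', c * |s - s'| ≤ ‖γ s - γ s'‖) →
    KerBdd (GC γ) (1 / (2 * c))

/-- part EHS : the difference kernels are square integrable (from K1, K3, GEO) -/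
structure S_EHS : Prop where
  eC : ∀ p L : ℝ, 0 < p → p ≤ 1 → 0 < L →
    Integrable (fun z : ℝ × ℝ => (GC (crv p L) z.1 z.2 - GS z.1 z.2) ^ 2)
  eB : Integrable (fun z : ℝ × ℝ => (GC bnd z.1 z.2 - GS z.1 z.2) ^ 2)

/-- part CONT : norm continuity in `p` (from K1, K3, GEO, HSB: dominated convergence for
`∬ (GC (crv p' L) - GC (crv p L))² → 0`; the difference vanishes for `s s' > 0`). -/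
def S_CONT : Prop := ∀ L : ℝ, 0 < L → ∀ p₀ : ℝ, 0 < p₀ → ∀ p ∈ Icc p₀ 1, ∀ ε > 0, ∃ δ > 0,
  ∀ p' ∈ Icc p₀ 1, |p' - p| < δ → ∀ f h : ℝ → ℝ, MemLp f 2 volume → MemLp h 2 volume →
    |Bil (GC (crv p' L)) f h - Bil (GC (crv p L)) f h| ≤ ε * √(N f) * √(N h)

/-- part TENT : tent functions for the straight kernel (from K1, K2, SCH) -/
structure S_TENT : Prop where
  mem : ∀ m w : ℝ, 0 < w → MemLp (tent m w) 2 volume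
  nrm : ∀ m w : ℝ, 0 < w → N (tent m w) = 2 * w / 3
  form : ∀ m w : ℝ, 0 < w → 1 / 2 * N (tent m w) - 1 / w ≤ Bil GS (tent m w) (tent m w)
  /-- the form `1/2 ∫ f² - ∬ kap(|s-s'|) f f'` is nonnegative -/
  pos : ∀ f : ℝ → ℝ, MemLp f 2 volume → Bil GS f f ≤ 1 / 2 * N f

/-- part POS : one-bend curve: simple top eigenvalue `> 1/2` with gap
(from K1, K2, HSC, OP, GAP, GEO, KB, EHS, TENT) -/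
def S_POS : Prop := ∃ (v : ℝ → ℝ) (μ ν : ℝ), MemLp v 2 volume ∧ N v = 1 ∧
  Bil (GC bnd) v v = μ ∧ 1 / 2 < μ ∧ ν < μ ∧
  ∀ f : ℝ → ℝ, MemLp f 2 volume → ∫ s, f s * v s = 0 → Bil (GC bnd) f f ≤ ν * N f

/-- part ONE (i) : an odd function with form `> 1/2`, for every `p ∈ [p₀, 1]`, `L` large
(from K1, K3, GEO, KB, TENT) -/
def S_ONE : Prop := ∀ p₀ : ℝ, 0 < p₀ → ∃ L₀ : ℝ, ∀ L ≥ L₀, ∀ p ∈ Icc p₀ 1,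
  ∃ f : ℝ → ℝ, MemLp f 2 volume ∧ (∀ s, f (-s) = -f s) ∧
    1 / 2 * N f < Bil (GC (crv p L)) f f

/-- part PART : partition of unity -/
def S_PART : Prop := ∀ L : ℝ, 0 < L → ∃ χ₀ χ₁ : ℝ → ℝ, Continuous χ₀ ∧ Continuous χ₁ ∧
  (∀ s, χ₀ (-s) = χ₀ s) ∧ (∀ s, χ₀ s ^ 2 + χ₁ s ^ 2 + χ₁ (-s) ^ 2 = 1) ∧
  (∀ s, χ₁ s ≠ 0 → 0 ≤ s) ∧ (∀ s, χ₀ s ≠ 0 → |s| ≤ L) ∧
  (∀ s s', |χ₁ s - χ₁ s'| ≤ 10 / L * |s - s'|) ∧ (∀ s s', |χ₀ s - χ₀ s'| ≤ 10 / L * |s - s'|)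

/-- part IMS : localisation (from K1, K2, GEO, KB, SCH) -/
def S_IMS : Prop := ∃ C : ℝ, ∀ (L : ℝ), 1 ≤ L → ∀ χ₀ χ₁ : ℝ → ℝ, Continuous χ₀ → Continuous χ₁ →
  (∀ s, χ₀ s ^ 2 + χ₁ s ^ 2 + χ₁ (-s) ^ 2 = 1) →
  (∀ s s', |χ₁ s - χ₁ s'| ≤ 10 / L * |s - s'|) → (∀ s s', |χ₀ s - χ₀ s'| ≤ 10 / L * |s - s'|) →
  ∀ f : ℝ → ℝ, MemLp f 2 volume →
    Bil (GC (crv 1 L)) f f ≤
      Bil (GC (crv 1 L)) (fun s => χ₀ s * f s) (fun s => χ₀ s * f s) +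
      Bil (GC (crv 1 L)) (fun s => χ₁ s * f s) (fun s => χ₁ s * f s) +
      Bil (GC (crv 1 L)) (fun s => χ₁ (-s) * f s) (fun s => χ₁ (-s) * f s) + C / L ^ 2 * N f

/-- part UP (ii, upper bound) (from PART, IMS, GEO, KB, TENT) -/
def S_UP : Prop := ∀ (v : ℝ → ℝ) (ν : ℝ), MemLp v 2 volume → 1 / 2 ≤ ν →
  (∀ f : ℝ → ℝ, MemLp f 2 volume → ∫ s, f s * v s = 0 → Bil (GC bnd) f f ≤ ν * N f) →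
  ∀ δ > 0, ∃ L₀ : ℝ, ∀ L ≥ L₀, ∃ g : ℝ → ℝ, MemLp g 2 volume ∧
    ∀ f : ℝ → ℝ, MemLp f 2 volume → (∀ s, f (-s) = f s) → ∫ s, f s * g s = 0 →
      Bil (GC (crv 1 L)) f f ≤ (ν + δ) * N f

/-- part LO (ii, lower bound) (from K1, K3, GEO, KB) -/
def S_LO : Prop := ∀ v : ℝ → ℝ, MemLp v 2 volume → N v = 1 → ∀ δ > 0, ∃ L₀ : ℝ, ∀ L ≥ L₀,
  ∃ f : ℝ → ℝ, MemLp f 2 volume ∧ (∀ s, f (-s) = -f s) ∧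
    (Bil (GC bnd) v v - δ) * N f < Bil (GC (crv 1 L)) f f

/-- part THREEA (iii, upper bound for odd functions) (from K1, K2, GEO, SCH, KB) -/
def S_THREEA : Prop := ∀ p L : ℝ, 0 < p → p ≤ 1 → 0 < L → ∀ f : ℝ → ℝ, MemLp f 2 volume →
  (∀ s, f (-s) = -f s) → Bil (GC (crv p L)) f f ≤ 1 / (2 * √(9 / 10)) * N f

/-- part THREEB (iii, two even trial functions) (from K1, K2, GEO, KB, TENT) -/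
def S_THREEB : Prop := ∀ δ > 0, ∃ p₀ : ℝ, 0 < p₀ ∧ p₀ < 1 ∧ ∃ L₀ : ℝ, ∀ L ≥ L₀,
  ∃ f₁ f₂ : ℝ → ℝ, MemLp f₁ 2 volume ∧ MemLp f₂ 2 volume ∧ (∀ s, f₁ (-s) = f₁ s) ∧
    (∀ s, f₂ (-s) = f₂ s) ∧ (∀ x y : ℝ, N (fun s => x * f₁ s + y * f₂ s) = 0 → x = 0 ∧ y = 0) ∧
    ∀ x y : ℝ, (1 - δ) * N (fun s => x * f₁ s + y * f₂ s) ≤
      Bil (GC (crv p₀ L)) (fun s => x * f₁ s + y * f₂ s) (fun s => x * f₁ s + y * f₂ s)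

/-- part ASM : assembly of the double eigenvalue of the kernel operator -/
def S_ASM : Prop := ∃ p L μ : ℝ, 0 < p ∧ p ≤ 1 ∧ 0 < L ∧ 1 / 2 < μ ∧ ∃ f₁ f₂ : ℝ → ℝ,
  MemLp f₁ 2 volume ∧ MemLp f₂ 2 volume ∧ 0 < N f₁ ∧ 0 < N f₂ ∧ ∫ s, f₁ s * f₂ s = 0 ∧
  (∀ h : ℝ → ℝ, MemLp h 2 volume → Bil (GC (crv p L)) f₁ h = μ * ∫ s, f₁ s * h s) ∧
  (∀ h : ℝ → ℝ, MemLp h 2 volume → Bil (GC (crv p L)) f₂ h = μ * ∫ s, f₂ s * h s)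

/-! ## F. Birman-Schwinger -/

/-- part BS -/
def S_BS : Prop := ∀ (γ : ℝ → E2) (c : ℝ), 0 < c → Continuous γ →
  (∀ s s', c * |s - s'| ≤ ‖γ s - γ s'‖) → ∀ μ : ℝ, 0 < μ → ∀ f₁ f₂ : ℝ → ℝ,
  MemLp f₁ 2 volume → MemLp f₂ 2 volume → 0 < N f₁ → 0 < N f₂ → ∫ s, f₁ s * f₂ s = 0 →
  (∀ h : ℝ → ℝ, MemLp h 2 volume → Bil (GC γ) f₁ h = μ * ∫ s, f₁ s * h s) →
  (∀ h : ℝ → ℝ, MemLp h 2 volume → Bil (GC γ) f₂ h = μ * ∫ s, f₂ s * h s) →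
  MultTwo (1 / μ) γ (-1)

/-- the result -/
def S_MAIN : Prop := ∃ (α : ℝ) (γ : ℝ → E2) (lam : ℝ), 0 < α ∧ Admissible γ ∧
  lam < -(α ^ 2 / 4) ∧ MultTwo α γ lam

end Pool.Agent.Helper94.LK
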