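import Pool.Agent.Helper94.LK.Spec

open MeasureTheory Filter Topology Set Complex
open scoped ENNReal InnerProductSpace SchwartzMap ComplexConjugate FourierTransform Real

namespace Pool.Agent.Helper94.LK

/-- Fourier transform of `f dγ` -/
noncomputable def FT (γ : ℝ → E2) (f : ℝ → ℂ) (ξ : E2) : ℂ :=
  ∫ s, f s * cexp ((-2 * π * I) * ((⟪γ s, ξ⟫_ℝ : ℝ) : ℂ))

lemma norm_phase (x : ℝ) : ‖cexp ((-2 * π * I) * (x : ℂ))‖ = 1 := by
  rw [Complex.norm_exp]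
  simp

lemma FT_norm_le (γ : ℝ → E2) (f : ℝ → ℂ) (ξ : E2) : ‖FT γ f ξ‖ ≤ ∫ s, ‖f s‖ := by
  unfold FT
  refine (norm_integral_le_integral_norm _).trans (le_of_eq ?_)
  congr 1; funext s
  rw [norm_mul, norm_phase, mul_one]

lemma FT_cont {γ : ℝ → E2} (hγ : Continuous γ) {f : ℝ → ℂ} (hf : Integrable f) :
    Continuous (FT γ f) := by
  unfold FT
  refine continuous_of_dominated (F := fun ξ s => f s * cexp ((-2 * π * I) * ((⟪γ s, ξ⟫_ℝ : ℝ) : ℂ)))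
    (bound := fun s => ‖f s‖) ?_ ?_ hf.norm ?_
  · intro ξ
    refine hf.aestronglyMeasurable.mul ?_
    exact (by fun_prop : Continuous fun s => cexp ((-2 * π * I) * ((⟪γ s, ξ⟫_ℝ : ℝ) : ℂ))).aestronglyMeasurable
  · intro ξ
    refine ae_of_all _ fun s => ?_
    rw [norm_mul, norm_phase, mul_one]
  · refine ae_of_all _ fun s => ?_
    fun_prop

/-- Gaussian integral -/
lemma gauss_int (t : ℝ) (ht : 0 < t) (w : E2) :
    ∫ ξ : E2, cexp ((-2 * π * I) * ((⟪w, ξ⟫_ℝ : ℝ) : ℂ)) *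
      ((Real.exp (-(4 * π ^ 2 * t) * ‖ξ‖ ^ 2) : ℝ) : ℂ) =
      (((4 * π * t)⁻¹ * Real.exp (-‖w‖ ^ 2 / (4 * t)) : ℝ) : ℂ) := by
  have hb : 0 < ((4 * π ^ 2 * t : ℝ) : ℂ).re := by
    simp only [ofReal_re]; positivity
  have h := GaussianFourier.integral_cexp_neg_mul_sq_norm_add (V := E2) hb (-2 * π * I) w
  have h2 : ∀ ξ : E2, cexp ((-2 * π * I) * ((⟪w, ξ⟫_ℝ : ℝ) : ℂ)) *
      ((Real.exp (-(4 * π ^ 2 * t) * ‖ξ‖ ^ 2) : ℝ) : ℂ) =
      cexp (-((4 * π ^ 2 * t : ℝ) : ℂ) * ‖ξ‖ ^ 2 + (-2 * π * I) * ((⟪w, ξ⟫_ℝ : ℝ) : ℂ)) := by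
    intro ξ
    rw [Complex.exp_add, mul_comm]
    congr 1
    push_cast
    rfl
  simp_rw [h2]
  rw [h]
  have hpi : (π : ℂ) ≠ 0 := by exact_mod_cast Real.pi_ne_zero
  have htc : (t : ℂ) ≠ 0 := by exact_mod_cast ht.ne'
  have hfr : (Module.finrank ℝ E2 / 2 : ℂ) = 1 := by
    simp
  rw [hfr, Complex.cpow_one]
  have hI : (-2 * (π : ℂ) * I) ^ 2 = -(4 * π ^ 2) := by
    ring_nf
    rw [Complex.I_sq]; ring
  rw [hI]
  have e1 : (π : ℂ) / ((4 * π ^ 2 * t : ℝ) : ℂ) = (((4 * π * t)⁻¹ : ℝ) : ℂ) := by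
    push_cast
    rw [div_eq_iff (by simp [hpi, htc])]
    field_simp
  have e2 : -(4 * (π : ℂ) ^ 2) * (‖w‖ : ℂ) ^ 2 / (4 * ((4 * π ^ 2 * t : ℝ) : ℂ)) =
      ((-‖w‖ ^ 2 / (4 * t) : ℝ) : ℂ) := by
    push_cast
    rw [div_eq_div_iff (by simp [hpi, htc]) (by simp [htc])]
    ring
  rw [e1, e2, ← Complex.ofReal_exp, ← Complex.ofReal_mul]

/-- product formula -/
lemma FT_mul {γ : ℝ → E2} (f h : ℝ → ℂ) (ξ : E2) :
    FT γ f ξ * conj (FT γ h ξ) =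
      ∫ z : ℝ × ℝ, (f z.1 * conj (h z.2)) *
        cexp ((-2 * π * I) * ((⟪γ z.1 - γ z.2, ξ⟫_ℝ : ℝ) : ℂ)) := by
  unfold FT
  rw [← integral_conj, ← integral_prod_mul]
  congr 1
  funext z
  rw [map_mul, ← Complex.exp_conj]
  have : conj ((-2 * (π : ℂ) * I) * ((⟪γ z.2, ξ⟫_ℝ : ℝ) : ℂ)) =
      -((-2 * π * I) * ((⟪γ z.2, ξ⟫_ℝ : ℝ) : ℂ)) := by
    simp only [map_mul, map_neg, Complex.conj_ofReal, Complex.conj_I, map_ofNat]
    ring
  rw [this, inner_sub_left]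
  push_cast
  rw [mul_sub, Complex.exp_sub, Complex.exp_neg]
  rw [div_eq_mul_inv]
  ring

lemma gauss_integrable (t : ℝ) (ht : 0 < t) :
    Integrable (fun ξ : E2 => Real.exp (-(4 * π ^ 2 * t) * ‖ξ‖ ^ 2)) := by
  have hb : 0 < ((4 * π ^ 2 * t : ℝ) : ℂ).re := by
    simp only [ofReal_re]; positivity
  have h := (GaussianFourier.integrable_cexp_neg_mul_sq_norm_add (V := E2) hb 0 0).norm
  refine h.congr (ae_of_all _ fun ξ => ?_)
  simp only [zero_mul, add_zero, Complex.norm_exp]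
  congr 1
  norm_cast

/-- identity at fixed `t` -/
lemma FT_gauss {γ : ℝ → E2} (hγ : Continuous γ) {f h : ℝ → ℂ} (hf : Integrable f)
    (hh : Integrable h) (t : ℝ) (ht : 0 < t) :
    ∫ ξ : E2, (FT γ f ξ * conj (FT γ h ξ)) * ((Real.exp (-(4 * π ^ 2 * t) * ‖ξ‖ ^ 2) : ℝ) : ℂ) =
      ∫ z : ℝ × ℝ, (f z.1 * conj (h z.2)) *
        (((4 * π * t)⁻¹ * Real.exp (-‖γ z.1 - γ z.2‖ ^ 2 / (4 * t)) : ℝ) : ℂ) := by
  simp_rw [FT_mul, ← integral_mul_const]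
  rw [integral_integral_swap]
  · congr 1
    funext z
    rw [← gauss_int t ht, ← integral_const_mul]
    congr 1
    funext ξ
    ring
  · have h1 : Integrable (fun z : ℝ × ℝ => f z.1 * conj (h z.2)) :=
      Integrable.mul_prod hf ((Complex.conjCLE : ℂ →L[ℝ] ℂ).integrable_comp hh)
    have h2 := gauss_integrable t ht
    have h3 : Integrable (fun q : E2 × (ℝ × ℝ) =>
        Real.exp (-(4 * π ^ 2 * t) * ‖q.1‖ ^ 2) * ‖f q.2.1 * conj (h q.2.2)‖)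
        (volume.prod volume) := Integrable.mul_prod h2 h1.norm
    refine h3.mono ?_ (ae_of_all _ fun q => ?_)
    · refine AEStronglyMeasurable.mul (AEStronglyMeasurable.mul ?_ ?_) ?_
      · exact (h1.aestronglyMeasurable.comp_snd)
      · exact (by fun_prop : Continuous fun q : E2 × (ℝ × ℝ) =>
          cexp ((-2 * π * I) * ((⟪γ q.2.1 - γ q.2.2, q.1⟫_ℝ : ℝ) : ℂ))).aestronglyMeasurable
      · exact (by fun_prop : Continuous fun q : E2 × (ℝ × ℝ) =>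
          ((Real.exp (-(4 * π ^ 2 * t) * ‖q.1‖ ^ 2) : ℝ) : ℂ)).aestronglyMeasurable
    · simp only [Function.uncurry]
      rw [norm_mul, norm_mul, norm_phase, mul_one, Complex.norm_real, mul_comm, norm_mul]
      exact le_of_eq (by rw [norm_mul, norm_mul, norm_norm, norm_norm])

end Pool.Agent.Helper94.LK
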