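import Pool.Agent.Helper94.LK.BS1

open MeasureTheory Filter Topology Set Complex
open scoped ENNReal InnerProductSpace SchwartzMap ComplexConjugate FourierTransform Real

namespace Pool.Agent.Helper94.LK

/-- integrand of `kap` -/
noncomputable def gk (r t : ℝ) : ℝ := (4 * Real.pi * t)⁻¹ * Real.exp (-t - r ^ 2 / (4 * t))

lemma gk_nonneg {r t : ℝ} (ht : 0 < t) : 0 ≤ gk r t := by
  unfold gk
  have := Real.pi_pos
  positivity

lemma gk_meas : Measurable (fun q : ℝ × ℝ => gk q.1 q.2) := by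
  unfold gk
  fun_prop

lemma gk_le {r t : ℝ} (hr : 0 < r) (ht : 0 < t) : gk r t ≤ (Real.pi * r ^ 2)⁻¹ * Real.exp (-t) := by
  unfold gk
  have hpi := Real.pi_pos
  have h1 : Real.exp (-t - r ^ 2 / (4 * t)) = Real.exp (-t) * Real.exp (-(r ^ 2 / (4 * t))) := by
    rw [← Real.exp_add]; ring_nf
  have hx : 0 < r ^ 2 / (4 * t) := by positivity
  have h2 : Real.exp (-(r ^ 2 / (4 * t))) ≤ (r ^ 2 / (4 * t))⁻¹ := by
    rw [Real.exp_neg]
    apply inv_anti₀ hx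
    have := Real.add_one_le_exp (r ^ 2 / (4 * t))
    linarith
  rw [h1]
  calc (4 * Real.pi * t)⁻¹ * (Real.exp (-t) * Real.exp (-(r ^ 2 / (4 * t))))
      ≤ (4 * Real.pi * t)⁻¹ * (Real.exp (-t) * (r ^ 2 / (4 * t))⁻¹) := by gcongr
    _ = (Real.pi * r ^ 2)⁻¹ * Real.exp (-t) := by
      field_simp

lemma gk_integrable {r : ℝ} (hr : 0 < r) : IntegrableOn (gk r) (Ioi 0) := by
  have h1 : IntegrableOn (fun t : ℝ => (Real.pi * r ^ 2)⁻¹ * Real.exp (-t)) (Ioi 0) :=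
    (integrableOn_exp_neg_Ioi 0).const_mul _
  refine h1.mono' ?_ ?_
  · exact (gk_meas.comp (measurable_const.prodMk measurable_id)).aestronglyMeasurable
  · refine (ae_restrict_iff' measurableSet_Ioi).2 (ae_of_all _ fun t ht => ?_)
    rw [Real.norm_of_nonneg (gk_nonneg ht)]
    exact gk_le hr ht

lemma kap_eq (r : ℝ) : kap r = ∫ t in Ioi (0:ℝ), gk r t := rfl

lemma diag_null : ∀ᵐ z : ℝ × ℝ, z.1 ≠ z.2 := by
  rw [ae_iff]
  simp only [not_not]
  have : (volume : Measure (ℝ × ℝ)) = volume.prod volume := rfl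
  rw [this, Measure.measure_prod_null (measurableSet_eq_fun measurable_fst measurable_snd)]
  refine ae_of_all _ fun x => ?_
  have : (Prod.mk x ⁻¹' {z : ℝ × ℝ | z.1 = z.2}) = {x} := by
    ext y; simp [eq_comm]
  show volume (Prod.mk x ⁻¹' {z : ℝ × ℝ | z.1 = z.2}) = 0
  rw [this]; simp

variable {γ : ℝ → E2} {M : ℝ}

lemma memLp_norm {f : ℝ → ℂ} (hf : MemLp f 2 volume) : MemLp (fun s => ‖f s‖) 2 volume := hf.norm

/-- integrability on `(0,∞) × ℝ²` -/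
lemma theta_int (hγ : Continuous γ) (hinj : ∀ s s', s ≠ s' → γ s ≠ γ s') (hK : KerBdd (GC γ) M)
    {f h : ℝ → ℂ} (hf : MemLp f 2 volume) (hh : MemLp h 2 volume) :
    Integrable (fun q : ℝ × (ℝ × ℝ) => (f q.2.1 * conj (h q.2.2)) *
      ((gk ‖γ q.2.1 - γ q.2.2‖ q.1 : ℝ) : ℂ)) ((volume.restrict (Ioi (0:ℝ))).prod volume) := by
  have hmeas : AEStronglyMeasurable (fun q : ℝ × (ℝ × ℝ) => (f q.2.1 * conj (h q.2.2)) *
      ((gk ‖γ q.2.1 - γ q.2.2‖ q.1 : ℝ) : ℂ)) ((volume.restrict (Ioi (0:ℝ))).prod volume) := by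
    refine AEStronglyMeasurable.mul ?_ ?_
    · have h1 : AEStronglyMeasurable (fun z : ℝ × ℝ => f z.1 * conj (h z.2)) volume := by
        refine AEStronglyMeasurable.mul ?_ ?_
        · exact hf.aestronglyMeasurable.comp_fst
        · exact (Complex.continuous_conj.comp_aestronglyMeasurable hh.aestronglyMeasurable).comp_snd
      exact h1.comp_snd
    · have h2 : Measurable (fun q : ℝ × (ℝ × ℝ) => gk ‖γ q.2.1 - γ q.2.2‖ q.1) := by
        refine gk_meas.comp (Measurable.prodMk ?_ measurable_fst)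
        exact (by fun_prop : Continuous fun q : ℝ × (ℝ × ℝ) => ‖γ q.2.1 - γ q.2.2‖).measurable
      exact (Complex.measurable_ofReal.comp h2).aestronglyMeasurable
  rw [integrable_prod_iff' hmeas]
  constructor
  · filter_upwards [diag_null] with z hz
    have hr : 0 < ‖γ z.1 - γ z.2‖ := norm_pos_iff.2 (sub_ne_zero.2 (hinj _ _ hz))
    exact ((gk_integrable hr).ofReal).const_mul _
  · have h3 := hK.int (fun s => ‖f s‖) (fun s => ‖h s‖) hf.norm hh.norm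
    refine h3.congr (ae_of_all _ fun z => ?_)
    simp only [norm_mul, RCLike.norm_conj]
    rw [integral_const_mul, mul_comm]
    congr 1
    unfold GC
    rw [kap_eq]
    refine setIntegral_congr_fun measurableSet_Ioi fun t ht => ?_
    rw [Complex.norm_real, Real.norm_of_nonneg (gk_nonneg ht)]

/-- the weight -/
noncomputable def wt (ξ : E2) : ℝ := 1 + 4 * π ^ 2 * ‖ξ‖ ^ 2

lemma wt_pos (ξ : E2) : 0 < wt ξ := by unfold wt; positivity

lemma wt_cont : Continuous wt := by unfold wt; fun_prop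

lemma wt_inv (ξ : E2) : ∫ t in Ioi (0:ℝ), Real.exp (-(wt ξ * t)) = (wt ξ)⁻¹ := by
  have h := integral_exp_mul_Ioi (neg_lt_zero.2 (wt_pos ξ)) 0
  simp only [neg_mul] at h
  rw [h]
  simp

lemma wt_exp_int (ξ : E2) : IntegrableOn (fun t => Real.exp (-(wt ξ * t))) (Ioi 0) := by
  have := exp_neg_integrableOn_Ioi 0 (wt_pos ξ)
  simpa [neg_mul] using this

lemma exp_split (ξ : E2) (t : ℝ) : Real.exp (-(wt ξ * t)) =
    Real.exp (-t) * Real.exp (-(4 * π ^ 2 * t) * ‖ξ‖ ^ 2) := by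
  rw [← Real.exp_add]; congr 1; unfold wt; ring

/-- fixed time identity with the damping factor -/
lemma FT_gauss' (hγ : Continuous γ) {f h : ℝ → ℂ} (hf : Integrable f) (hh : Integrable h)
    (t : ℝ) (ht : 0 < t) :
    ∫ ξ : E2, (FT γ f ξ * conj (FT γ h ξ)) * ((Real.exp (-(wt ξ * t)) : ℝ) : ℂ) =
      ∫ z : ℝ × ℝ, (f z.1 * conj (h z.2)) * ((gk ‖γ z.1 - γ z.2‖ t : ℝ) : ℂ) := by
  have h1 := FT_gauss hγ hf hh t ht
  have e1 : ∀ ξ : E2, (FT γ f ξ * conj (FT γ h ξ)) * ((Real.exp (-(wt ξ * t)) : ℝ) : ℂ) =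
      ((Real.exp (-t) : ℝ) : ℂ) * ((FT γ f ξ * conj (FT γ h ξ)) *
        ((Real.exp (-(4 * π ^ 2 * t) * ‖ξ‖ ^ 2) : ℝ) : ℂ)) := by
    intro ξ
    rw [exp_split]; push_cast; ring
  simp_rw [e1]
  rw [integral_const_mul, h1, ← integral_const_mul]
  congr 1
  funext z
  have e2 : gk ‖γ z.1 - γ z.2‖ t = Real.exp (-t) *
      ((4 * π * t)⁻¹ * Real.exp (-‖γ z.1 - γ z.2‖ ^ 2 / (4 * t))) := by
    unfold gk
    have : Real.exp (-t - ‖γ z.1 - γ z.2‖ ^ 2 / (4 * t)) =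
      Real.exp (-t) * Real.exp (-‖γ z.1 - γ z.2‖ ^ 2 / (4 * t)) := by
      rw [← Real.exp_add]; congr 1; ring
    rw [this]; ring
  rw [e2]; push_cast; ring

lemma psi_meas (hγ : Continuous γ) {f h : ℝ → ℂ} (hf : Integrable f) (hh : Integrable h) :
    AEStronglyMeasurable (fun q : ℝ × E2 => (FT γ f q.2 * conj (FT γ h q.2)) *
      ((Real.exp (-(wt q.2 * q.1)) : ℝ) : ℂ)) ((volume.restrict (Ioi (0:ℝ))).prod volume) := by
  have h1 := FT_cont hγ hf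
  have h2 := FT_cont hγ hh
  have h3 := wt_cont
  exact (by fun_prop : Continuous fun q : ℝ × E2 => (FT γ f q.2 * conj (FT γ h q.2)) *
      ((Real.exp (-(wt q.2 * q.1)) : ℝ) : ℂ)).aestronglyMeasurable

lemma psi_slice (hγ : Continuous γ) {f h : ℝ → ℂ} (hf : Integrable f) (hh : Integrable h)
    (t : ℝ) (ht : 0 < t) :
    Integrable (fun ξ : E2 => (FT γ f ξ * conj (FT γ h ξ)) * ((Real.exp (-(wt ξ * t)) : ℝ) : ℂ)) := by
  have h1 := FT_cont hγ hf
  have h2 := FT_cont hγ hh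
  have h3 := wt_cont
  have hg := (gauss_integrable t ht).const_mul (((∫ s, ‖f s‖) * (∫ s, ‖h s‖)) * Real.exp (-t))
  refine hg.mono' ?_ (ae_of_all _ fun ξ => ?_)
  · exact (by fun_prop : Continuous fun ξ : E2 => (FT γ f ξ * conj (FT γ h ξ)) *
      ((Real.exp (-(wt ξ * t)) : ℝ) : ℂ)).aestronglyMeasurable
  · rw [norm_mul, norm_mul, RCLike.norm_conj, Complex.norm_real, exp_split,
      Real.norm_of_nonneg (by positivity), mul_assoc (_ * _) (Real.exp (-t))]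
    have a1 := FT_norm_le γ f ξ
    have a2 := FT_norm_le γ h ξ
    gcongr

/-- `F² / w` is integrable, diagonal case on the product space -/
lemma psi_int_diag (hγ : Continuous γ) (hinj : ∀ s s', s ≠ s' → γ s ≠ γ s')
    (hK : KerBdd (GC γ) M) {f : ℝ → ℂ} (hf1 : Integrable f) (hf : MemLp f 2 volume) :
    Integrable (fun q : ℝ × E2 => (FT γ f q.2 * conj (FT γ f q.2)) *
      ((Real.exp (-(wt q.2 * q.1)) : ℝ) : ℂ)) ((volume.restrict (Ioi (0:ℝ))).prod volume) := by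
  rw [integrable_prod_iff (psi_meas hγ hf1 hf1)]
  constructor
  · refine (ae_restrict_iff' measurableSet_Ioi).2 (ae_of_all _ fun t ht => ?_)
    exact psi_slice hγ hf1 hf1 t ht
  · have h1 := (theta_int hγ hinj hK hf hf).integral_prod_left
    refine h1.norm.mono ?_ ?_
    · exact (psi_meas hγ hf1 hf1).norm.integral_prod_right'
    · refine (ae_restrict_iff' measurableSet_Ioi).2 (ae_of_all _ fun t ht => ?_)
      rw [norm_norm]
      simp only
      rw [← FT_gauss' hγ hf1 hf1 t ht]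
      have e : ∀ ξ : E2, ‖(FT γ f ξ * conj (FT γ f ξ)) * ((Real.exp (-(wt ξ * t)) : ℝ) : ℂ)‖ =
          ‖FT γ f ξ‖ ^ 2 * Real.exp (-(wt ξ * t)) := by
        intro ξ
        rw [norm_mul, norm_mul, RCLike.norm_conj, Complex.norm_real,
          Real.norm_of_nonneg (by positivity)]
        ring
      have e' : ∀ ξ : E2, (FT γ f ξ * conj (FT γ f ξ)) * ((Real.exp (-(wt ξ * t)) : ℝ) : ℂ) =
          ((‖FT γ f ξ‖ ^ 2 * Real.exp (-(wt ξ * t)) : ℝ) : ℂ) := by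
        intro ξ
        rw [Complex.mul_conj, Complex.normSq_eq_norm_sq]
        push_cast; ring
      simp_rw [e, e']
      have e3 : ∫ ξ : E2, ((‖FT γ f ξ‖ ^ 2 * Real.exp (-(wt ξ * t)) : ℝ) : ℂ) =
        ((∫ ξ : E2, ‖FT γ f ξ‖ ^ 2 * Real.exp (-(wt ξ * t)) : ℝ) : ℂ) := integral_ofReal
      rw [e3, Complex.norm_real]

lemma psi_int (hγ : Continuous γ) (hinj : ∀ s s', s ≠ s' → γ s ≠ γ s')
    (hK : KerBdd (GC γ) M) {f h : ℝ → ℂ} (hf1 : Integrable f) (hf : MemLp f 2 volume)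
    (hh1 : Integrable h) (hh : MemLp h 2 volume) :
    Integrable (fun q : ℝ × E2 => (FT γ f q.2 * conj (FT γ h q.2)) *
      ((Real.exp (-(wt q.2 * q.1)) : ℝ) : ℂ)) ((volume.restrict (Ioi (0:ℝ))).prod volume) := by
  have h1 := (psi_int_diag hγ hinj hK hf1 hf).norm
  have h2 := (psi_int_diag hγ hinj hK hh1 hh).norm
  refine (h1.add h2).mono' (psi_meas hγ hf1 hh1) (ae_of_all _ fun q => ?_)
  simp only [Pi.add_apply, norm_mul, RCLike.norm_conj]
  have a := norm_nonneg (((Real.exp (-(wt q.2 * q.1)) : ℝ) : ℂ))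
  have b : ‖FT γ f q.2‖ * ‖FT γ h q.2‖ ≤
      ‖FT γ f q.2‖ * ‖FT γ f q.2‖ + ‖FT γ h q.2‖ * ‖FT γ h q.2‖ := by
    nlinarith [sq_nonneg (‖FT γ f q.2‖ - ‖FT γ h q.2‖), sq_nonneg (‖FT γ f q.2‖),
      sq_nonneg (‖FT γ h q.2‖), mul_nonneg (norm_nonneg (FT γ f q.2)) (norm_nonneg (FT γ h q.2))]
  calc _ ≤ (‖FT γ f q.2‖ * ‖FT γ f q.2‖ + ‖FT γ h q.2‖ * ‖FT γ h q.2‖) *
        ‖((Real.exp (-(wt q.2 * q.1)) : ℝ) : ℂ)‖ := by gcongr
    _ = _ := by ring

/-- `F conj H / w` is integrable -/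
lemma FH_int (hγ : Continuous γ) (hinj : ∀ s s', s ≠ s' → γ s ≠ γ s')
    (hK : KerBdd (GC γ) M) {f h : ℝ → ℂ} (hf1 : Integrable f) (hf : MemLp f 2 volume)
    (hh1 : Integrable h) (hh : MemLp h 2 volume) :
    Integrable (fun ξ : E2 => (FT γ f ξ * conj (FT γ h ξ)) * (((wt ξ)⁻¹ : ℝ) : ℂ)) := by
  have h1 := (psi_int hγ hinj hK hf1 hf hh1 hh).integral_prod_right
  refine h1.congr (ae_of_all _ fun ξ => ?_)
  simp only
  rw [integral_const_mul, ← wt_inv ξ]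
  congr 1
  exact integral_ofReal

/-- the kernel identity -/
lemma FH_eq (hγ : Continuous γ) (hinj : ∀ s s', s ≠ s' → γ s ≠ γ s')
    (hK : KerBdd (GC γ) M) {f h : ℝ → ℂ} (hf1 : Integrable f) (hf : MemLp f 2 volume)
    (hh1 : Integrable h) (hh : MemLp h 2 volume) :
    ∫ ξ : E2, (FT γ f ξ * conj (FT γ h ξ)) * (((wt ξ)⁻¹ : ℝ) : ℂ) =
      ∫ z : ℝ × ℝ, ((GC γ z.1 z.2 : ℝ) : ℂ) * (f z.1 * conj (h z.2)) := by
  have e1 : ∀ ξ : E2, (FT γ f ξ * conj (FT γ h ξ)) * (((wt ξ)⁻¹ : ℝ) : ℂ) =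
      ∫ t in Ioi (0:ℝ), (FT γ f ξ * conj (FT γ h ξ)) * ((Real.exp (-(wt ξ * t)) : ℝ) : ℂ) := by
    intro ξ
    rw [integral_const_mul, ← wt_inv ξ]
    congr 1
    exact integral_ofReal.symm
  simp_rw [e1]
  have hs := integral_integral_swap (f := fun (t : ℝ) (ξ : E2) =>
    (FT γ f ξ * conj (FT γ h ξ)) * ((Real.exp (-(wt ξ * t)) : ℝ) : ℂ))
    (μ := volume.restrict (Ioi (0:ℝ))) (ν := volume) (psi_int hγ hinj hK hf1 hf hh1 hh)
  rw [← hs]
  have e2 : ∫ t in Ioi (0:ℝ), ∫ ξ : E2, (FT γ f ξ * conj (FT γ h ξ)) *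
        ((Real.exp (-(wt ξ * t)) : ℝ) : ℂ) =
      ∫ t in Ioi (0:ℝ), ∫ z : ℝ × ℝ, (f z.1 * conj (h z.2)) *
        ((gk ‖γ z.1 - γ z.2‖ t : ℝ) : ℂ) :=
    setIntegral_congr_fun measurableSet_Ioi fun t ht => FT_gauss' hγ hf1 hh1 t ht
  rw [e2]
  have hs2 := integral_integral_swap (f := fun (t : ℝ) (z : ℝ × ℝ) =>
    (f z.1 * conj (h z.2)) * ((gk ‖γ z.1 - γ z.2‖ t : ℝ) : ℂ))
    (μ := volume.restrict (Ioi (0:ℝ))) (ν := volume) (theta_int hγ hinj hK hf hh)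
  rw [hs2]
  congr 1
  funext z
  rw [integral_const_mul, mul_comm]
  congr 1
  unfold GC
  rw [kap_eq]
  exact integral_ofReal

end Pool.Agent.Helper94.LK
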