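import Pool.Agent.Helper94.LK.BS2

open MeasureTheory Filter Topology Set Complex
open scoped ENNReal InnerProductSpace SchwartzMap ComplexConjugate FourierTransform Real LineDeriv

namespace Pool.Agent.Helper94.LK

noncomputable abbrev L2V := Lp ℂ 2 (volume : Measure E2)
noncomputable abbrev L2R := Lp ℂ 2 (volume : Measure ℝ)

/-- real multiplier `w^{-1/2}` -/
noncomputable def rr (ξ : E2) : ℝ := (1 + ‖(2 * π) • ξ‖ ^ 2) ^ (-(1 / 2) : ℝ)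

/-- its inverse `w^{1/2}` -/
noncomputable def ri (ξ : E2) : ℝ := (1 + ‖(2 * π) • ξ‖ ^ 2) ^ ((1 / 2) : ℝ)

lemma base_eq (ξ : E2) : 1 + ‖(2 * π) • ξ‖ ^ 2 = wt ξ := by
  rw [norm_smul, Real.norm_of_nonneg (by positivity)]
  unfold wt; ring

lemma rr_pos (ξ : E2) : 0 < rr ξ := by
  unfold rr; rw [base_eq]; exact Real.rpow_pos_of_pos (wt_pos ξ) _

lemma rr_sq (ξ : E2) : rr ξ * rr ξ = (wt ξ)⁻¹ := by
  unfold rr
  rw [base_eq, ← Real.rpow_add (wt_pos ξ)]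
  norm_num
  exact Real.rpow_neg_one _

lemma rr_ri (ξ : E2) : rr ξ * ri ξ = 1 := by
  unfold rr ri
  rw [base_eq, ← Real.rpow_add (wt_pos ξ)]
  norm_num

noncomputable def rho (ξ : E2) : ℂ := ((rr ξ : ℝ) : ℂ)
noncomputable def rhi (ξ : E2) : ℂ := ((ri ξ : ℝ) : ℂ)

lemma rr_tg : rr.HasTemperateGrowth := by
  have h1 := Function.hasTemperateGrowth_one_add_norm_sq_rpow E2 (-(1 / 2) : ℝ)
  have h2 : (fun ξ : E2 => (2 * π) • ξ).HasTemperateGrowth :=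
    ((2 * π) • ContinuousLinearMap.id ℝ E2).hasTemperateGrowth
  exact h1.comp h2

lemma ri_tg : ri.HasTemperateGrowth := by
  have h1 := Function.hasTemperateGrowth_one_add_norm_sq_rpow E2 ((1 / 2) : ℝ)
  have h2 : (fun ξ : E2 => (2 * π) • ξ).HasTemperateGrowth :=
    ((2 * π) • ContinuousLinearMap.id ℝ E2).hasTemperateGrowth
  exact h1.comp h2

lemma rho_tg : rho.HasTemperateGrowth := by
  have := Complex.ofRealCLM.hasTemperateGrowth.comp rr_tg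
  exact this

lemma rhi_tg : rhi.HasTemperateGrowth := by
  have := Complex.ofRealCLM.hasTemperateGrowth.comp ri_tg
  exact this

/-- `θ ↦ 𝓕⁻ (w^{-1/2} θ)` -/
noncomputable def JJ : 𝓢(E2, ℂ) →ₗ[ℂ] 𝓢(E2, ℂ) :=
  (FourierTransform.fourierInvₗ ℂ (𝓢(E2, ℂ))).comp (SchwartzMap.smulLeftCLM ℂ rho).toLinearMap

lemma JJ_apply (θ : 𝓢(E2, ℂ)) : JJ θ = 𝓕⁻ (SchwartzMap.smulLeftCLM ℂ rho θ) := rfl

/-- inverse map -/
noncomputable def JI (φ : 𝓢(E2, ℂ)) : 𝓢(E2, ℂ) := SchwartzMap.smulLeftCLM ℂ rhi (𝓕 φ)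

lemma rho_rhi (ξ : E2) : rho ξ * rhi ξ = 1 := by
  unfold rho rhi; rw [← Complex.ofReal_mul, rr_ri]; simp

lemma JJ_JI (φ : 𝓢(E2, ℂ)) : JJ (JI φ) = φ := by
  rw [JJ_apply, JI]
  have : SchwartzMap.smulLeftCLM ℂ rho (SchwartzMap.smulLeftCLM ℂ rhi (𝓕 φ)) = 𝓕 φ := by
    ext ξ
    rw [SchwartzMap.smulLeftCLM_apply_apply rho_tg, SchwartzMap.smulLeftCLM_apply_apply rhi_tg,
      smul_smul, rho_rhi, one_smul]
  rw [this]
  simp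

/-- the `L²` embedding -/
noncomputable def SS : 𝓢(E2, ℂ) →ₗ[ℂ] L2V := (SchwartzMap.toLpCLM ℂ ℂ 2 volume).toLinearMap

lemma SS_apply (θ : 𝓢(E2, ℂ)) : SS θ = θ.toLp 2 volume := rfl

lemma SS_dense : DenseRange SS := by
  have h := SchwartzMap.denseRange_toLpCLM (E := E2) (F := ℂ) (p := 2) (μ := volume) (by norm_num)
  exact h

/-- partial derivative as linear map -/
noncomputable def DD (i : Fin 2) : 𝓢(E2, ℂ) →ₗ[ℂ] 𝓢(E2, ℂ) :=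
  (LineDeriv.lineDerivOpCLM ℂ 𝓢(E2, ℂ) (EuclideanSpace.single i (1:ℝ) : E2)).toLinearMap

lemma DD_apply (i : Fin 2) (φ : 𝓢(E2, ℂ)) (x : E2) : DD i φ x = pd i φ x := by
  show (∂_{(EuclideanSpace.single i (1:ℝ) : E2)} φ) x = _
  rw [SchwartzMap.lineDerivOp_apply_eq_fderiv]; rfl

lemma DD_eq (i : Fin 2) (φ : 𝓢(E2, ℂ)) : (DD i φ : E2 → ℂ) = pd i φ := by
  funext x; exact DD_apply i φ x

lemma int_pair (b : E2 → ℂ) (hb : Continuous b) (hb1 : ∀ ξ, ‖b ξ‖ ≤ 1) (θ θ' : 𝓢(E2, ℂ)) :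
    Integrable (fun ξ => b ξ * ⟪θ ξ, θ' ξ⟫_ℂ) := by
  have h1 : Integrable (fun ξ => ‖θ ξ‖ * SchwartzMap.seminorm ℝ 0 0 θ') :=
    θ.integrable.norm.mul_const _
  refine h1.mono' ?_ (ae_of_all _ fun ξ => ?_)
  · have := θ.continuous
    have := θ'.continuous
    exact (by fun_prop : Continuous (fun ξ => b ξ * ⟪θ ξ, θ' ξ⟫_ℂ)).aestronglyMeasurable
  · rw [norm_mul]
    have h2 : ‖⟪θ ξ, θ' ξ⟫_ℂ‖ ≤ ‖θ ξ‖ * ‖θ' ξ‖ := norm_inner_le_norm _ _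
    have h3 : ‖θ' ξ‖ ≤ SchwartzMap.seminorm ℝ 0 0 θ' := SchwartzMap.norm_le_seminorm ℝ θ' ξ
    calc ‖b ξ‖ * ‖⟪θ ξ, θ' ξ⟫_ℂ‖ ≤ 1 * (‖θ ξ‖ * ‖θ' ξ‖) := by gcongr; exact hb1 ξ
      _ ≤ ‖θ ξ‖ * SchwartzMap.seminorm ℝ 0 0 θ' := by rw [one_mul]; gcongr

/-- Plancherel -/
lemma inner_JJ (θ θ' : 𝓢(E2, ℂ)) :
    ⟪SS (JJ θ), SS (JJ θ')⟫_ℂ + ∑ i, ⟪SS (DD i (JJ θ)), SS (DD i (JJ θ'))⟫_ℂ = ⟪SS θ, SS θ'⟫_ℂ := by
  have hF : ∀ u : 𝓢(E2, ℂ), 𝓕 (JJ u) = SchwartzMap.smulLeftCLM ℂ rho u := by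
    intro u; rw [JJ_apply]; simp
  have h0 : ⟪SS (JJ θ), SS (JJ θ')⟫_ℂ = ∫ ξ, ((wt ξ)⁻¹ : ℂ) * ⟪θ ξ, θ' ξ⟫_ℂ := by
    rw [SS_apply, SS_apply, SchwartzMap.inner_toL2_toL2_eq _ _ volume,
      ← SchwartzMap.integral_inner_fourier_fourier, hF, hF]
    congr 1; funext ξ
    rw [SchwartzMap.smulLeftCLM_apply_apply rho_tg, SchwartzMap.smulLeftCLM_apply_apply rho_tg]
    rw [smul_eq_mul, smul_eq_mul]
    simp only [RCLike.inner_apply]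
    rw [map_mul]
    have : conj (rho ξ) = rho ξ := by unfold rho; exact Complex.conj_ofReal _
    rw [this]
    have h2 : rho ξ * rho ξ = ((wt ξ)⁻¹ : ℂ) := by
      unfold rho; rw [← Complex.ofReal_mul, rr_sq]; push_cast; rfl
    rw [← h2]; ring
  have hi : ∀ i, ⟪SS (DD i (JJ θ)), SS (DD i (JJ θ'))⟫_ℂ =
      ∫ ξ, ((4 * π ^ 2 * (ξ i) ^ 2 : ℝ) : ℂ) * (((wt ξ)⁻¹ : ℂ) * ⟪θ ξ, θ' ξ⟫_ℂ) := by
    intro i
    rw [SS_apply, SS_apply, SchwartzMap.inner_toL2_toL2_eq _ _ volume,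
      ← SchwartzMap.integral_inner_fourier_fourier]
    have hD : ∀ u : 𝓢(E2, ℂ), ∀ ξ, 𝓕 (DD i (JJ u)) ξ =
        (2 * π * I) * ((ξ i : ℝ) : ℂ) * (rho ξ * u ξ) := by
      intro u ξ
      show (𝓕 (∂_{(EuclideanSpace.single i (1:ℝ) : E2)} (JJ u))) ξ = _
      rw [SchwartzMap.fourier_lineDerivOp_eq, hF]
      have : (inner ℝ · (EuclideanSpace.single i (1:ℝ) : E2)).HasTemperateGrowth := by fun_prop
      rw [SchwartzMap.smul_apply, SchwartzMap.smulLeftCLM_apply_apply this,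
        SchwartzMap.smulLeftCLM_apply_apply rho_tg]
      simp only [smul_eq_mul, Complex.real_smul]
      rw [EuclideanSpace.inner_single_right]
      simp
      ring
    congr 1; funext ξ
    rw [hD, hD]
    simp only [RCLike.inner_apply, map_mul, map_ofNat, Complex.conj_ofReal, Complex.conj_I]
    have : conj (rho ξ) = rho ξ := by unfold rho; exact Complex.conj_ofReal _
    rw [this]
    have h2 : rho ξ * rho ξ = ((wt ξ)⁻¹ : ℂ) := by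
      unfold rho; rw [← Complex.ofReal_mul, rr_sq]; push_cast; rfl
    rw [← h2]
    push_cast
    linear_combination (-(4 * (π:ℂ) ^ 2 * (ξ i : ℂ) ^ 2 * rho ξ ^ 2 * θ' ξ * conj (θ ξ))) * Complex.I_sq
  have hI0 : Integrable (fun ξ => ((wt ξ)⁻¹ : ℂ) * ⟪θ ξ, θ' ξ⟫_ℂ) := by
    refine int_pair _ ?_ ?_ θ θ'
    · have := wt_cont
      have h3 : ∀ ξ, (wt ξ : ℂ) ≠ 0 := fun ξ => by exact_mod_cast (wt_pos ξ).ne'
      exact (Complex.continuous_ofReal.comp wt_cont).inv₀ h3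
    · intro ξ
      rw [norm_inv, Complex.norm_real, Real.norm_of_nonneg (wt_pos ξ).le]
      apply inv_le_one_of_one_le₀
      unfold wt
      have : 0 ≤ 4 * π ^ 2 * ‖ξ‖ ^ 2 := by positivity
      linarith
  have hIi : ∀ i : Fin 2, Integrable
      (fun ξ : E2 => ((4 * π ^ 2 * (ξ i) ^ 2 : ℝ) : ℂ) * (((wt ξ)⁻¹ : ℂ) * ⟪θ ξ, θ' ξ⟫_ℂ)) := by
    intro i
    simp_rw [← mul_assoc]
    refine int_pair _ ?_ ?_ θ θ'
    · have h3 : ∀ ξ, (wt ξ : ℂ) ≠ 0 := fun ξ => by exact_mod_cast (wt_pos ξ).ne'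
      have h4 := (Complex.continuous_ofReal.comp wt_cont).inv₀ h3
      exact (by fun_prop : Continuous fun ξ : E2 => ((4 * π ^ 2 * (ξ i) ^ 2 : ℝ) : ℂ)).mul h4
    · intro ξ
      rw [norm_mul, norm_inv, Complex.norm_real, Complex.norm_real,
        Real.norm_of_nonneg (wt_pos ξ).le, Real.norm_of_nonneg (by positivity),
        ← div_eq_mul_inv, div_le_one (wt_pos ξ)]
      unfold wt
      have hn : (ξ i) ^ 2 ≤ ‖ξ‖ ^ 2 := by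
        have := EuclideanSpace.norm_sq_eq ξ
        rw [this, Fin.sum_univ_two, Real.norm_eq_abs, Real.norm_eq_abs, sq_abs, sq_abs]
        fin_cases i
        · simp only [Fin.zero_eta]; nlinarith [sq_nonneg (ξ 1)]
        · simp only [Fin.mk_one]; nlinarith [sq_nonneg (ξ 0)]
      have : 4 * π ^ 2 * (ξ i) ^ 2 ≤ 4 * π ^ 2 * ‖ξ‖ ^ 2 := by gcongr
      linarith
  rw [h0]
  simp_rw [hi]
  rw [← integral_finsetSum _ (fun i _ => hIi i)]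
  rw [← integral_add]
  · rw [SS_apply, SS_apply, SchwartzMap.inner_toL2_toL2_eq _ _ volume]
    congr 1; funext ξ
    have hn : ‖ξ‖ ^ 2 = (ξ 0) ^ 2 + (ξ 1) ^ 2 := by
      rw [EuclideanSpace.norm_sq_eq]; simp
    have hw : (wt ξ : ℂ) ≠ 0 := by exact_mod_cast (wt_pos ξ).ne'
    rw [Fin.sum_univ_two]
    have e : (wt ξ : ℂ) = 1 + 4 * π ^ 2 * ((ξ 0 : ℂ) ^ 2 + (ξ 1 : ℂ) ^ 2) := by
      unfold wt; rw [hn]; push_cast; ring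
    have : ((wt ξ)⁻¹ : ℂ) * ⟪θ ξ, θ' ξ⟫_ℂ +
        (((4 * π ^ 2 * (ξ 0) ^ 2 : ℝ) : ℂ) * (((wt ξ)⁻¹ : ℂ) * ⟪θ ξ, θ' ξ⟫_ℂ) +
        ((4 * π ^ 2 * (ξ 1) ^ 2 : ℝ) : ℂ) * (((wt ξ)⁻¹ : ℂ) * ⟪θ ξ, θ' ξ⟫_ℂ)) =
        ((wt ξ : ℂ) * (wt ξ : ℂ)⁻¹) * ⟪θ ξ, θ' ξ⟫_ℂ := by
      generalize ((wt ξ : ℂ))⁻¹ = W
      rw [e]; push_cast; ring
    rw [this, mul_inv_cancel₀ hw, one_mul]
  · exact hI0
  · exact integrable_finset_sum _ (fun i _ => hIi i)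

end Pool.Agent.Helper94.LK
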