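import Pool.Agent.Helper94.LK.BS3

open MeasureTheory Filter Topology Set Complex
open scoped ENNReal InnerProductSpace SchwartzMap ComplexConjugate FourierTransform Real LineDeriv

namespace Pool.Agent.Helper94.LK

lemma norm_sq_JJ (θ : 𝓢(E2, ℂ)) :
    ‖SS (JJ θ)‖ ^ 2 + ∑ i, ‖SS (DD i (JJ θ))‖ ^ 2 = ‖SS θ‖ ^ 2 := by
  have h := inner_JJ θ θ
  simp only [inner_self_eq_norm_sq_to_K] at h
  have h2 : (((‖SS (JJ θ)‖ ^ 2 + ∑ i, ‖SS (DD i (JJ θ))‖ ^ 2 : ℝ)) : ℂ) = ((‖SS θ‖ ^ 2 : ℝ) : ℂ) := by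
    push_cast
    exact h
  exact_mod_cast h2

lemma norm_JJ_le (θ : 𝓢(E2, ℂ)) : ‖SS (JJ θ)‖ ≤ 1 * ‖SS θ‖ := by
  have h := norm_sq_JJ θ
  have h1 : 0 ≤ ∑ i, ‖SS (DD i (JJ θ))‖ ^ 2 := Finset.sum_nonneg fun i _ => sq_nonneg _
  rw [one_mul]
  exact (pow_le_pow_iff_left₀ (by positivity) (by positivity) two_ne_zero).1 (by linarith)

lemma norm_DJ_le (i : Fin 2) (θ : 𝓢(E2, ℂ)) : ‖SS (DD i (JJ θ))‖ ≤ 1 * ‖SS θ‖ := by
  have h := norm_sq_JJ θ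
  have h1 : ‖SS (DD i (JJ θ))‖ ^ 2 ≤ ∑ i, ‖SS (DD i (JJ θ))‖ ^ 2 :=
    Finset.single_le_sum (f := fun i => ‖SS (DD i (JJ θ))‖ ^ 2) (fun i _ => sq_nonneg _)
      (Finset.mem_univ i)
  have h2 := sq_nonneg ‖SS (JJ θ)‖
  rw [one_mul]
  exact (pow_le_pow_iff_left₀ (by positivity) (by positivity) two_ne_zero).1 (by linarith)

section trace

variable {γ : ℝ → E2} {M c : ℝ}

lemma growth (hc : 0 < c) (hlow : ∀ s s', c * |s - s'| ≤ ‖γ s - γ s'‖) :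
    ∃ K : ℝ, 0 < K ∧ ∀ s, 1 + |s| ≤ K * (1 + ‖γ s‖) := by
  refine ⟨(1 + ‖γ 0‖) * (1 + c⁻¹), by positivity, fun s => ?_⟩
  have h := hlow s 0
  rw [sub_zero] at h
  have h2 : ‖γ s - γ 0‖ ≤ ‖γ s‖ + ‖γ 0‖ := norm_sub_le _ _
  have h3 : |s| ≤ c⁻¹ * (‖γ s‖ + ‖γ 0‖) := by
    rw [← div_eq_inv_mul, le_div_iff₀ hc]; linarith
  have hc' : 0 < c⁻¹ := inv_pos.2 hc
  nlinarith [norm_nonneg (γ s), norm_nonneg (γ 0), mul_nonneg (norm_nonneg (γ s)) (norm_nonneg (γ 0)),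
    mul_nonneg hc'.le (mul_nonneg (norm_nonneg (γ s)) (norm_nonneg (γ 0))),
    mul_nonneg hc'.le (norm_nonneg (γ s)), mul_nonneg hc'.le (norm_nonneg (γ 0))]

lemma comp_int (hγ : Continuous γ) (hc : 0 < c) (hlow : ∀ s s', c * |s - s'| ≤ ‖γ s - γ s'‖)
    (φ : 𝓢(E2, ℂ)) : Integrable (fun s => φ (γ s)) := by
  obtain ⟨K, hK, hK2⟩ := growth hc hlow
  set C : ℝ := 2 ^ 2 * (Finset.Iic ((2, 0) : ℕ × ℕ)).sup (fun m => SchwartzMap.seminorm ℝ m.1 m.2) φ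
  have h1 : ∀ x : E2, (1 + ‖x‖) ^ 2 * ‖φ x‖ ≤ C := by
    intro x
    have := SchwartzMap.one_add_le_sup_seminorm_apply (𝕜 := ℝ) (m := (2, 0)) (k := 2) (n := 0)
      le_rfl le_rfl φ x
    simpa using this
  have h2 := integrable_one_add_norm (E := ℝ) (μ := volume) (r := 2) (by simp)
  have h3 : Integrable (fun s : ℝ => (C * K ^ 2) * (1 + ‖s‖) ^ (-(2:ℝ))) := h2.const_mul _
  refine h3.mono' ?_ (ae_of_all _ fun s => ?_)
  · have := φ.continuous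
    exact (by fun_prop : Continuous fun s => φ (γ s)).aestronglyMeasurable
  · have hs : 0 < 1 + ‖s‖ := by positivity
    have e1 : (1 + ‖s‖) ^ (-(2:ℝ)) = ((1 + ‖s‖) ^ 2)⁻¹ := by
      rw [Real.rpow_neg hs.le]; norm_cast
    rw [e1, ← div_eq_mul_inv, le_div_iff₀ (by positivity)]
    have h4 := hK2 s
    have h5 : (1 + ‖s‖) ^ 2 ≤ (K * (1 + ‖γ s‖)) ^ 2 := by
      apply pow_le_pow_left₀ hs.le; simpa using h4
    calc ‖φ (γ s)‖ * (1 + ‖s‖) ^ 2 ≤ ‖φ (γ s)‖ * (K * (1 + ‖γ s‖)) ^ 2 := by gcongr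
      _ = K ^ 2 * ((1 + ‖γ s‖) ^ 2 * ‖φ (γ s)‖) := by ring
      _ ≤ K ^ 2 * C := by gcongr; exact h1 _
      _ = C * K ^ 2 := by ring

lemma comp_memLp (hγ : Continuous γ) (hc : 0 < c) (hlow : ∀ s s', c * |s - s'| ≤ ‖γ s - γ s'‖)
    (φ : 𝓢(E2, ℂ)) : MemLp (fun s => φ (γ s)) 2 volume := by
  have h1 := comp_int hγ hc hlow φ
  have hcont : Continuous fun s => φ (γ s) := by have := φ.continuous; fun_prop
  rw [memLp_two_iff_integrable_sq_norm hcont.aestronglyMeasurable]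
  refine (h1.norm.mul_const (SchwartzMap.seminorm ℝ 0 0 φ)).mono' ?_ (ae_of_all _ fun s => ?_)
  · exact (by fun_prop : Continuous fun s => ‖φ (γ s)‖ ^ 2).aestronglyMeasurable
  · rw [Real.norm_of_nonneg (by positivity), sq]
    gcongr
    exact SchwartzMap.norm_le_seminorm ℝ φ _

/-- trace map on Schwartz functions -/
noncomputable def TR (hL : ∀ φ : 𝓢(E2, ℂ), MemLp (fun s => φ (γ s)) 2 volume) :
    𝓢(E2, ℂ) →ₗ[ℂ] L2R where
  toFun φ := (hL φ).toLp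
  map_add' a b := by
    rw [← MemLp.toLp_add]; rfl
  map_smul' r a := by
    rw [RingHom.id_apply, ← MemLp.toLp_const_smul]; rfl

/-- pairing formula -/
lemma pair_eq (hγ : Continuous γ) {f : ℝ → ℂ} (hf : Integrable f) (θ : 𝓢(E2, ℂ)) :
    ∫ s, conj (f s) * JJ θ (γ s) = ∫ ξ, conj (rho ξ * FT γ f ξ) * θ ξ := by
  have e1 : ∀ s, conj (f s) * JJ θ (γ s) =
      ∫ ξ : E2, conj (f s) * (cexp (2 * π * I * ((⟪γ s, ξ⟫_ℝ : ℝ) : ℂ)) * (rho ξ * θ ξ)) := by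
    intro s
    rw [integral_const_mul]
    congr 1
    rw [JJ_apply, SchwartzMap.fourierInv_coe, Real.fourierInv_eq']
    congr 1; funext ξ
    rw [SchwartzMap.smulLeftCLM_apply_apply rho_tg, smul_eq_mul, smul_eq_mul, real_inner_comm]
    congr 2
    push_cast; ring
  simp_rw [e1]
  rw [integral_integral_swap]
  · congr 1; funext ξ
    have e2 : conj (rho ξ * FT γ f ξ) =
        ∫ s, conj (f s) * cexp (2 * π * I * ((⟪γ s, ξ⟫_ℝ : ℝ) : ℂ)) * rho ξ := by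
      rw [integral_mul_const, map_mul]
      have : conj (rho ξ) = rho ξ := by unfold rho; exact Complex.conj_ofReal _
      rw [this, mul_comm]
      congr 1
      unfold FT
      rw [← integral_conj]
      congr 1; funext s
      rw [map_mul, ← Complex.exp_conj]
      congr 2
      simp only [map_mul, map_neg, Complex.conj_ofReal, Complex.conj_I, map_ofNat]
      ring
    rw [e2, ← integral_mul_const]
    congr 1; funext s
    ring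
  · have h1 : Integrable (fun ξ : E2 => rho ξ * θ ξ) := by
      have := (SchwartzMap.smulLeftCLM ℂ rho θ).integrable (μ := volume)
      refine this.congr (ae_of_all _ fun ξ => ?_)
      rw [SchwartzMap.smulLeftCLM_apply_apply rho_tg, smul_eq_mul]
    have h2 : Integrable (fun q : ℝ × E2 => ‖f q.1‖ * ‖rho q.2 * θ q.2‖) (volume.prod volume) :=
      Integrable.mul_prod hf.norm h1.norm
    refine h2.mono' ?_ (ae_of_all _ fun q => ?_)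
    · refine AEStronglyMeasurable.mul ?_ (AEStronglyMeasurable.mul ?_ ?_)
      · exact (Complex.continuous_conj.comp_aestronglyMeasurable hf.aestronglyMeasurable).comp_fst
      · exact (by fun_prop : Continuous fun q : ℝ × E2 =>
          cexp (2 * π * I * ((⟪γ q.1, q.2⟫_ℝ : ℝ) : ℂ))).aestronglyMeasurable
      · exact h1.aestronglyMeasurable.comp_snd
    · simp only [Function.uncurry]
      rw [norm_mul, norm_mul, RCLike.norm_conj]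
      have : ‖cexp (2 * π * I * ((⟪γ q.1, q.2⟫_ℝ : ℝ) : ℂ))‖ = 1 := by
        rw [Complex.norm_exp]; simp
      rw [this, one_mul]

lemma rhoF_memLp (hγ : Continuous γ) (hinj : ∀ s s', s ≠ s' → γ s ≠ γ s')
    (hK : KerBdd (GC γ) M) {f : ℝ → ℂ} (hf1 : Integrable f) (hf : MemLp f 2 volume) :
    MemLp (fun ξ => rho ξ * FT γ f ξ) 2 volume := by
  have hc1 := FT_cont hγ hf1
  have hc2 : Continuous rho := rho_tg.1.continuous
  have hm : AEStronglyMeasurable (fun ξ => rho ξ * FT γ f ξ) volume :=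
    (hc2.mul hc1).aestronglyMeasurable
  rw [memLp_two_iff_integrable_sq_norm hm]
  have h := (FH_int hγ hinj hK hf1 hf hf1 hf).norm
  refine h.congr (ae_of_all _ fun ξ => ?_)
  simp only [norm_mul, RCLike.norm_conj, Complex.norm_real]
  rw [mul_pow]
  have : ‖rho ξ‖ ^ 2 = ‖(wt ξ)⁻¹‖ := by
    unfold rho
    rw [Complex.norm_real, Real.norm_of_nonneg (rr_pos ξ).le, sq, rr_sq,
      Real.norm_of_nonneg (inv_nonneg.2 (wt_pos ξ).le)]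
  rw [this]; ring

/-- `w^{-1/2} F` in `L²` -/
noncomputable def GF (hγ : Continuous γ) (hinj : ∀ s s', s ≠ s' → γ s ≠ γ s')
    (hK : KerBdd (GC γ) M) {f : ℝ → ℂ} (hf1 : Integrable f) (hf : MemLp f 2 volume) : L2V :=
  (rhoF_memLp hγ hinj hK hf1 hf).toLp

lemma inner_GF (hγ : Continuous γ) (hinj : ∀ s s', s ≠ s' → γ s ≠ γ s')
    (hK : KerBdd (GC γ) M) {f h : ℝ → ℂ} (hf1 : Integrable f) (hf : MemLp f 2 volume)
    (hh1 : Integrable h) (hh : MemLp h 2 volume) :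
    ⟪GF hγ hinj hK hf1 hf, GF hγ hinj hK hh1 hh⟫_ℂ =
      ∫ z : ℝ × ℝ, ((GC γ z.1 z.2 : ℝ) : ℂ) * (h z.1 * conj (f z.2)) := by
  rw [← FH_eq hγ hinj hK hh1 hh hf1 hf, L2.inner_def]
  refine integral_congr_ae ?_
  filter_upwards [(rhoF_memLp hγ hinj hK hf1 hf).coeFn_toLp,
    (rhoF_memLp hγ hinj hK hh1 hh).coeFn_toLp] with ξ h1 h2
  unfold GF
  rw [h1, h2]
  simp only [RCLike.inner_apply, map_mul]
  have : conj (rho ξ) = rho ξ := by unfold rho; exact Complex.conj_ofReal _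
  rw [this]
  have h2 : rho ξ * rho ξ = (((wt ξ)⁻¹ : ℝ) : ℂ) := by
    unfold rho; rw [← Complex.ofReal_mul, rr_sq]
  rw [← h2]; ring

lemma inner_GF_SS (hγ : Continuous γ) (hinj : ∀ s s', s ≠ s' → γ s ≠ γ s')
    (hK : KerBdd (GC γ) M) {f : ℝ → ℂ} (hf1 : Integrable f) (hf : MemLp f 2 volume)
    (hL : ∀ φ : 𝓢(E2, ℂ), MemLp (fun s => φ (γ s)) 2 volume) (θ : 𝓢(E2, ℂ)) :
    ⟪GF hγ hinj hK hf1 hf, SS θ⟫_ℂ = ⟪hf.toLp, TR hL (JJ θ)⟫_ℂ := by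
  rw [L2.inner_def, L2.inner_def]
  have h1 : ∫ s, ⟪(hf.toLp : ℝ → ℂ) s, (TR hL (JJ θ) : ℝ → ℂ) s⟫_ℂ =
      ∫ s, conj (f s) * JJ θ (γ s) := by
    refine integral_congr_ae ?_
    filter_upwards [hf.coeFn_toLp, (hL (JJ θ)).coeFn_toLp] with s a b
    have b' : (TR hL (JJ θ) : ℝ → ℂ) s = JJ θ (γ s) := b
    rw [a, b', RCLike.inner_apply, mul_comm]
  rw [h1, pair_eq hγ hf1]
  refine integral_congr_ae ?_
  filter_upwards [(rhoF_memLp hγ hinj hK hf1 hf).coeFn_toLp, θ.coeFn_toLp 2 volume] with ξ a b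
  have a' : (GF hγ hinj hK hf1 hf : E2 → ℂ) ξ = rho ξ * FT γ f ξ := a
  have b' : (SS θ : E2 → ℂ) ξ = θ ξ := b
  rw [a', b', RCLike.inner_apply, mul_comm]

/-- complex bound for the kernel form -/
lemma ker_bound (hK : KerBdd (GC γ) M) (hk : ∀ r, 0 ≤ kap r) {f h : ℝ → ℂ} (hf : MemLp f 2 volume)
    (hh : MemLp h 2 volume) :
    ‖∫ z : ℝ × ℝ, ((GC γ z.1 z.2 : ℝ) : ℂ) * (h z.1 * conj (f z.2))‖ ≤
      M * ‖hh.toLp‖ * ‖hf.toLp‖ := by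
  refine (norm_integral_le_integral_norm _).trans ?_
  have h1 := hK.bd (fun s => ‖h s‖) (fun s => ‖f s‖) hh.norm hf.norm
  have e1 : ∫ z : ℝ × ℝ, ‖((GC γ z.1 z.2 : ℝ) : ℂ) * (h z.1 * conj (f z.2))‖ =
      Bil (GC γ) (fun s => ‖h s‖) (fun s => ‖f s‖) := by
    unfold Bil
    congr 1; funext z
    rw [norm_mul, norm_mul, RCLike.norm_conj, Complex.norm_real,
      Real.norm_of_nonneg (show 0 ≤ GC γ z.1 z.2 from hk _)]
  have e2 : ∀ (u : ℝ → ℂ) (hu : MemLp u 2 volume), √(N (fun s => ‖u s‖)) = ‖hu.toLp‖ := by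
    intro u hu
    have : N (fun s => ‖u s‖) = ‖hu.toLp‖ ^ 2 := by
      unfold N
      have h3 : ⟪hu.toLp, hu.toLp⟫_ℂ = ((‖hu.toLp‖ ^ 2 : ℝ) : ℂ) := by
        rw [inner_self_eq_norm_sq_to_K]; push_cast; rfl
      have h4 : ⟪hu.toLp, hu.toLp⟫_ℂ = ((∫ s, ‖u s‖ ^ 2 : ℝ) : ℂ) := by
        rw [L2.inner_def]
        have : ((∫ s, ‖u s‖ ^ 2 : ℝ) : ℂ) = ∫ s, ((‖u s‖ ^ 2 : ℝ) : ℂ) := integral_ofReal.symm
        rw [this]
        refine integral_congr_ae ?_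
        filter_upwards [hu.coeFn_toLp] with s a
        rw [a, inner_self_eq_norm_sq_to_K]; push_cast; rfl
      rw [h3] at h4
      exact_mod_cast h4.symm
    rw [this, Real.sqrt_sq (norm_nonneg _)]
  rw [e1]
  calc _ ≤ |Bil (GC γ) (fun s => ‖h s‖) (fun s => ‖f s‖)| := le_abs_self _
    _ ≤ _ := h1
    _ = _ := by rw [e2 h hh, e2 f hf]

/-- trace bound -/
lemma trace_bound (hγ : Continuous γ) (hinj : ∀ s s', s ≠ s' → γ s ≠ γ s')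
    (hK : KerBdd (GC γ) M) (hk : ∀ r, 0 ≤ kap r)
    (hL1 : ∀ φ : 𝓢(E2, ℂ), Integrable (fun s => φ (γ s)))
    (hL : ∀ φ : 𝓢(E2, ℂ), MemLp (fun s => φ (γ s)) 2 volume) (θ : 𝓢(E2, ℂ)) :
    ‖TR hL (JJ θ)‖ ≤ √M * ‖SS θ‖ := by
  set u : ℝ → ℂ := fun s => JJ θ (γ s) with hu
  have h1 := inner_GF_SS hγ hinj hK (hL1 (JJ θ)) (hL (JJ θ)) hL θ
  have e1 : (hL (JJ θ)).toLp = TR hL (JJ θ) := rfl
  rw [e1, inner_self_eq_norm_sq_to_K] at h1
  set g := GF hγ hinj hK (hL1 (JJ θ)) (hL (JJ θ)) with hg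
  have h2 : ‖TR hL (JJ θ)‖ ^ 2 ≤ ‖g‖ * ‖SS θ‖ := by
    have h3 : ‖⟪g, SS θ⟫_ℂ‖ ≤ ‖g‖ * ‖SS θ‖ := norm_inner_le_norm _ _
    rw [h1] at h3
    simpa using h3
  have h4 : ‖g‖ ^ 2 ≤ M * ‖TR hL (JJ θ)‖ * ‖TR hL (JJ θ)‖ := by
    have h5 := inner_GF hγ hinj hK (hL1 (JJ θ)) (hL (JJ θ)) (hL1 (JJ θ)) (hL (JJ θ))
    have h6 := ker_bound hK hk (hL (JJ θ)) (hL (JJ θ))
    rw [← h5, ← hg, inner_self_eq_norm_sq_to_K] at h6
    rw [e1] at h6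
    simpa using h6
  have hM := hK.hM
  have h7 : ‖g‖ ≤ √M * ‖TR hL (JJ θ)‖ := by
    have : ‖g‖ ^ 2 ≤ (√M * ‖TR hL (JJ θ)‖) ^ 2 := by
      rw [mul_pow, Real.sq_sqrt hM]; linarith
    exact (pow_le_pow_iff_left₀ (by positivity) (by positivity) two_ne_zero).1 this
  rcases eq_or_lt_of_le (norm_nonneg (TR hL (JJ θ))) with h8 | h8
  · rw [← h8]; positivity
  · have h9 : ‖TR hL (JJ θ)‖ * ‖TR hL (JJ θ)‖ ≤ (√M * ‖SS θ‖) * ‖TR hL (JJ θ)‖ := by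
      calc _ = ‖TR hL (JJ θ)‖ ^ 2 := by ring
        _ ≤ ‖g‖ * ‖SS θ‖ := h2
        _ ≤ (√M * ‖TR hL (JJ θ)‖) * ‖SS θ‖ := by gcongr
        _ = _ := by ring
    exact le_of_mul_le_mul_right h9 h8

end trace

end Pool.Agent.Helper94.LK
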