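import Pool.Agent.Helper94.LK.BS4

open MeasureTheory Filter Topology Set Complex
open scoped ENNReal InnerProductSpace SchwartzMap ComplexConjugate FourierTransform Real LineDeriv

namespace Pool.Agent.Helper94.LK

/-- extension of `θ ↦ JJ θ` -/
noncomputable def A0 : L2V →L[ℂ] L2V := (SS.comp JJ).extendOfNorm SS

/-- extension of `θ ↦ ∂_i JJ θ` -/
noncomputable def A1 (i : Fin 2) : L2V →L[ℂ] L2V := ((SS.comp (DD i)).comp JJ).extendOfNorm SS

lemma A0_SS (θ : 𝓢(E2, ℂ)) : A0 (SS θ) = SS (JJ θ) :=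
  LinearMap.extendOfNorm_eq SS_dense ⟨1, norm_JJ_le⟩ θ

lemma A1_SS (i : Fin 2) (θ : 𝓢(E2, ℂ)) : A1 i (SS θ) = SS (DD i (JJ θ)) :=
  LinearMap.extendOfNorm_eq SS_dense ⟨1, norm_DJ_le i⟩ θ

lemma inner_A (Θ Θ' : L2V) :
    ⟪A0 Θ, A0 Θ'⟫_ℂ + ∑ i, ⟪A1 i Θ, A1 i Θ'⟫_ℂ = ⟪Θ, Θ'⟫_ℂ := by
  refine SS_dense.induction_on₂ (p := fun Θ Θ' => ⟪A0 Θ, A0 Θ'⟫_ℂ + ∑ i, ⟪A1 i Θ, A1 i Θ'⟫_ℂ =
    ⟪Θ, Θ'⟫_ℂ) ?_ ?_ Θ Θ'
  · exact isClosed_eq (by fun_prop) (by fun_prop)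
  · intro a b
    simp only [A0_SS, A1_SS]
    exact inner_JJ a b

lemma norm_sq_A (Θ : L2V) : ‖A0 Θ‖ ^ 2 + ∑ i, ‖A1 i Θ‖ ^ 2 = ‖Θ‖ ^ 2 := by
  have h := inner_A Θ Θ
  simp only [inner_self_eq_norm_sq_to_K] at h
  have h2 : (((‖A0 Θ‖ ^ 2 + ∑ i, ‖A1 i Θ‖ ^ 2 : ℝ)) : ℂ) = ((‖Θ‖ ^ 2 : ℝ) : ℂ) := by
    push_cast
    exact h
  exact_mod_cast h2

/-- `A0` is injective -/
lemma A0_inj (Θ : L2V) (h : A0 Θ = 0) : Θ = 0 := by
  have key : ∀ (χ θ : 𝓢(E2, ℂ)), ⟪SS (𝓕⁻ χ), A0 (SS θ)⟫_ℂ =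
      ⟪SS (SchwartzMap.smulLeftCLM ℂ rho χ), SS θ⟫_ℂ := by
    intro χ θ
    rw [A0_SS, SS_apply, SS_apply, SchwartzMap.inner_toL2_toL2_eq _ _ volume,
      ← SchwartzMap.integral_inner_fourier_fourier, SS_apply, SS_apply,
      SchwartzMap.inner_toL2_toL2_eq _ _ volume, JJ_apply]
    congr 1; funext ξ
    rw [FourierTransform.fourier_fourierInv_eq, FourierTransform.fourier_fourierInv_eq,
      SchwartzMap.smulLeftCLM_apply_apply rho_tg, SchwartzMap.smulLeftCLM_apply_apply rho_tg]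
    simp only [RCLike.inner_apply, smul_eq_mul, map_mul]
    have : conj (rho ξ) = rho ξ := by unfold rho; exact Complex.conj_ofReal _
    rw [this]; ring
  have key2 : ∀ (χ : 𝓢(E2, ℂ)) (Θ : L2V), ⟪SS (𝓕⁻ χ), A0 Θ⟫_ℂ =
      ⟪SS (SchwartzMap.smulLeftCLM ℂ rho χ), Θ⟫_ℂ := by
    intro χ Θ
    refine SS_dense.induction_on (p := fun Θ => ⟪SS (𝓕⁻ χ), A0 Θ⟫_ℂ =
      ⟪SS (SchwartzMap.smulLeftCLM ℂ rho χ), Θ⟫_ℂ) Θ ?_ ?_
    · exact isClosed_eq (by fun_prop) (by fun_prop)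
    · exact fun θ => key χ θ
  have key3 : ∀ θ : 𝓢(E2, ℂ), ⟪SS θ, Θ⟫_ℂ = 0 := by
    intro θ
    have h1 := key2 (SchwartzMap.smulLeftCLM ℂ rhi θ) Θ
    have h2 : SchwartzMap.smulLeftCLM ℂ rho (SchwartzMap.smulLeftCLM ℂ rhi θ) = θ := by
      ext ξ
      rw [SchwartzMap.smulLeftCLM_apply_apply rho_tg, SchwartzMap.smulLeftCLM_apply_apply rhi_tg,
        smul_smul, rho_rhi, one_smul]
    rw [h2, h, inner_zero_right] at h1
    exact h1.symm
  have key4 : ∀ Θ' : L2V, ⟪Θ', Θ⟫_ℂ = 0 := by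
    intro Θ'
    refine SS_dense.induction_on (p := fun Θ' => ⟪Θ', Θ⟫_ℂ = 0) Θ' ?_ key3
    exact isClosed_eq (by fun_prop) (by fun_prop)
  exact inner_self_eq_zero.1 (key4 Θ)

/-! ### truncation -/

lemma trunc_int {f : ℝ → ℂ} (hf : MemLp f 2 volume) (n : ℕ) :
    Integrable ((Icc (-(n:ℝ)) n).indicator f) := by
  rw [integrable_indicator_iff measurableSet_Icc]
  have : IsFiniteMeasure (volume.restrict (Icc (-(n:ℝ)) n)) := by
    constructor; rw [Measure.restrict_apply_univ]; exact measure_Icc_lt_top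
  exact (hf.restrict _).integrable (by norm_num)

lemma trunc_mem {f : ℝ → ℂ} (hf : MemLp f 2 volume) (n : ℕ) :
    MemLp ((Icc (-(n:ℝ)) n).indicator f) 2 volume := hf.indicator measurableSet_Icc

lemma trunc_tendsto (f : ℝ → ℂ) (s : ℝ) :
    Tendsto (fun n : ℕ => (Icc (-(n:ℝ)) n).indicator f s) atTop (𝓝 (f s)) := by
  obtain ⟨n₀, hn₀⟩ := exists_nat_ge |s|
  refine tendsto_const_nhds.congr' ?_
  filter_upwards [eventually_ge_atTop n₀] with n hn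
  rw [indicator_of_mem]
  have : |s| ≤ n := hn₀.trans (by exact_mod_cast hn)
  exact abs_le.1 this

lemma trunc_norm_le (f : ℝ → ℂ) (n : ℕ) (s : ℝ) : ‖(Icc (-(n:ℝ)) n).indicator f s‖ ≤ ‖f s‖ := by
  rw [indicator]
  split_ifs
  · exact le_rfl
  · simp

/-- pairing with truncations converges -/
lemma pair_trunc (u : L2R) {f : ℝ → ℂ} (hf : MemLp f 2 volume) :
    Tendsto (fun n : ℕ => ⟪u, (trunc_mem hf n).toLp⟫_ℂ) atTop (𝓝 ⟪u, hf.toLp⟫_ℂ) := by
  have e : ∀ {g : ℝ → ℂ} (hg : MemLp g 2 volume), ⟪u, hg.toLp⟫_ℂ = ∫ s, ⟪(u : ℝ → ℂ) s, g s⟫_ℂ := by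
    intro g hg
    rw [L2.inner_def]
    refine integral_congr_ae ?_
    filter_upwards [hg.coeFn_toLp] with s a
    rw [a]
  simp_rw [e]
  have hint : Integrable (fun s => ‖(u : ℝ → ℂ) s‖ * ‖f s‖) :=
    (Lp.memLp u).norm.integrable_mul hf.norm
  refine tendsto_integral_of_dominated_convergence _ ?_ hint ?_ ?_
  · intro n
    exact (Lp.memLp u).aestronglyMeasurable.inner (trunc_mem hf n).aestronglyMeasurable
  · intro n
    refine ae_of_all _ fun s => (norm_inner_le_norm _ _).trans ?_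
    gcongr
    exact trunc_norm_le f n s
  · refine ae_of_all _ fun s => ?_
    exact Tendsto.inner tendsto_const_nhds (trunc_tendsto f s)

/-- an element of `L²` orthogonal to `L¹ ∩ L²` vanishes -/
lemma dens_zero (w : L2R) (h : ∀ (u : ℝ → ℂ) (_ : Integrable u) (hu : MemLp u 2 volume),
    ⟪hu.toLp, w⟫_ℂ = 0) : w = 0 := by
  have h1 := pair_trunc w (Lp.memLp w)
  have h2 : ∀ n : ℕ, ⟪w, (trunc_mem (Lp.memLp w) n).toLp⟫_ℂ = 0 := by
    intro n
    have := h _ (trunc_int (Lp.memLp w) n) (trunc_mem (Lp.memLp w) n)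
    rw [← inner_conj_symm, this, map_zero]
  simp_rw [h2] at h1
  have h3 : ⟪w, (Lp.memLp w).toLp⟫_ℂ = 0 := tendsto_nhds_unique tendsto_const_nhds h1 |>.symm
  rw [Lp.toLp_coeFn] at h3
  exact inner_self_eq_zero.1 h3

section main

variable {γ : ℝ → E2} {M c : ℝ}

/-- trace operator -/
noncomputable def TT (hL : ∀ φ : 𝓢(E2, ℂ), MemLp (fun s => φ (γ s)) 2 volume) : L2V →L[ℂ] L2R :=
  ((TR hL).comp JJ).extendOfNorm SS

variable (hγ : Continuous γ) (hinj : ∀ s s', s ≠ s' → γ s ≠ γ s')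
    (hK : KerBdd (GC γ) M) (hk : ∀ r, 0 ≤ kap r)
    (hL1 : ∀ φ : 𝓢(E2, ℂ), Integrable (fun s => φ (γ s)))
    (hL : ∀ φ : 𝓢(E2, ℂ), MemLp (fun s => φ (γ s)) 2 volume)

include hγ hinj hK hk hL1 in
lemma TT_SS (θ : 𝓢(E2, ℂ)) : TT hL (SS θ) = TR hL (JJ θ) :=
  LinearMap.extendOfNorm_eq SS_dense ⟨√M, trace_bound hγ hinj hK hk hL1 hL⟩ θ

include hk hL1 in
lemma adj_eq {f : ℝ → ℂ} (hf1 : Integrable f) (hf : MemLp f 2 volume) :
    (ContinuousLinearMap.adjoint (TT hL)) hf.toLp = GF hγ hinj hK hf1 hf := by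
  have h : ∀ Θ : L2V, ⟪GF hγ hinj hK hf1 hf, Θ⟫_ℂ = ⟪hf.toLp, TT hL Θ⟫_ℂ := by
    intro Θ
    refine SS_dense.induction_on (p := fun Θ => ⟪GF hγ hinj hK hf1 hf, Θ⟫_ℂ =
      ⟪hf.toLp, TT hL Θ⟫_ℂ) Θ ?_ ?_
    · exact isClosed_eq (by fun_prop) (by fun_prop)
    · intro θ
      rw [inner_GF_SS hγ hinj hK hf1 hf hL θ, TT_SS hγ hinj hK hk hL1 hL]
  refine ext_inner_right ℂ fun Θ => ?_
  rw [ContinuousLinearMap.adjoint_inner_left, h]

include hγ hinj hK hk hL1 in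
/-- the eigenvalue equation for `T T†` -/
lemma TTadj_eig {f : ℝ → ℝ} (hf : MemLp f 2 volume) {μ : ℝ}
    (hfe : ∀ h : ℝ → ℝ, MemLp h 2 volume → Bil (GC γ) f h = μ * ∫ s, f s * h s)
    (hF : MemLp (fun s => ((f s : ℝ) : ℂ)) 2 volume) :
    TT hL ((ContinuousLinearMap.adjoint (TT hL)) hF.toLp) = (μ : ℂ) • hF.toLp := by
  have h0 : TT hL ((ContinuousLinearMap.adjoint (TT hL)) hF.toLp) - (μ : ℂ) • hF.toLp = 0 := by
    refine dens_zero _ fun u hu1 hu => ?_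
    rw [inner_sub_right, sub_eq_zero]
    -- left side
    have e1 : ⟪hu.toLp, TT hL ((ContinuousLinearMap.adjoint (TT hL)) hF.toLp)⟫_ℂ =
        ⟪TT hL (GF hγ hinj hK hu1 hu), hF.toLp⟫_ℂ := by
      rw [← ContinuousLinearMap.adjoint_inner_left, adj_eq hγ hinj hK hk hL1 hL hu1 hu,
        ContinuousLinearMap.adjoint_inner_right]
    rw [e1]
    have l1 := pair_trunc (TT hL (GF hγ hinj hK hu1 hu)) hF
    have l2 : ∀ n : ℕ, ⟪TT hL (GF hγ hinj hK hu1 hu), (trunc_mem hF n).toLp⟫_ℂ =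
        ∫ z : ℝ × ℝ, ((GC γ z.1 z.2 : ℝ) : ℂ) *
          ((Icc (-(n:ℝ)) n).indicator (fun s => ((f s : ℝ) : ℂ)) z.1 * conj (u z.2)) := by
      intro n
      rw [← ContinuousLinearMap.adjoint_inner_right,
        adj_eq hγ hinj hK hk hL1 hL (trunc_int hF n) (trunc_mem hF n),
        inner_GF hγ hinj hK hu1 hu (trunc_int hF n) (trunc_mem hF n)]
    simp_rw [l2] at l1
    have hbint := hK.int (fun s => ‖((f s : ℝ) : ℂ)‖) (fun s => ‖u s‖) hF.norm hu.norm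
    have hGm : AEStronglyMeasurable (fun z : ℝ × ℝ => ((GC γ z.1 z.2 : ℝ) : ℂ)) volume :=
      (Complex.measurable_ofReal.comp hK.meas).aestronglyMeasurable
    have hum : AEStronglyMeasurable (fun z : ℝ × ℝ => conj (u z.2)) volume :=
      (Complex.continuous_conj.comp_aestronglyMeasurable hu.aestronglyMeasurable).comp_snd
    have l3 : Tendsto (fun n : ℕ => ∫ z : ℝ × ℝ, ((GC γ z.1 z.2 : ℝ) : ℂ) *
          ((Icc (-(n:ℝ)) n).indicator (fun s => ((f s : ℝ) : ℂ)) z.1 * conj (u z.2))) atTop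
        (𝓝 (∫ z : ℝ × ℝ, ((GC γ z.1 z.2 : ℝ) : ℂ) * (((f z.1 : ℝ) : ℂ) * conj (u z.2)))) := by
      refine tendsto_integral_of_dominated_convergence _ ?_ hbint ?_ ?_
      · intro n
        exact hGm.mul (((trunc_mem hF n).aestronglyMeasurable.comp_fst).mul hum)
      · intro n
        refine ae_of_all _ fun z => ?_
        rw [norm_mul, norm_mul, RCLike.norm_conj, Complex.norm_real,
          Real.norm_of_nonneg (show 0 ≤ GC γ z.1 z.2 from hk _)]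
        have h1 := trunc_norm_le (fun s => ((f s : ℝ) : ℂ)) n z.1
        have h2 : 0 ≤ GC γ z.1 z.2 := hk _
        gcongr
      · refine ae_of_all _ fun z => ?_
        exact tendsto_const_nhds.mul ((trunc_tendsto (fun s => ((f s : ℝ) : ℂ)) z.1).mul
          tendsto_const_nhds)
    rw [tendsto_nhds_unique l1 l3]
    -- evaluate with the real eigenvalue relation
    have hre : MemLp (fun s => (u s).re) 2 volume := hu.re
    have him : MemLp (fun s => (u s).im) 2 volume := hu.im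
    have i1 := hfe _ hre
    have i2 := hfe _ him
    have j1 := hK.int f _ hf hre
    have j2 := hK.int f _ hf him
    have e2 : ∫ z : ℝ × ℝ, ((GC γ z.1 z.2 : ℝ) : ℂ) * (((f z.1 : ℝ) : ℂ) * conj (u z.2)) =
        ((Bil (GC γ) f (fun s => (u s).re) : ℝ) : ℂ) -
          ((Bil (GC γ) f (fun s => (u s).im) : ℝ) : ℂ) * I := by
      have a1 : ((Bil (GC γ) f (fun s => (u s).re) : ℝ) : ℂ) =
          ∫ z : ℝ × ℝ, ((GC γ z.1 z.2 * (f z.1 * (u z.2).re) : ℝ) : ℂ) := integral_ofReal.symm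
      have a2 : ((Bil (GC γ) f (fun s => (u s).im) : ℝ) : ℂ) =
          ∫ z : ℝ × ℝ, ((GC γ z.1 z.2 * (f z.1 * (u z.2).im) : ℝ) : ℂ) := integral_ofReal.symm
      have j1' : Integrable (fun z : ℝ × ℝ =>
        ((GC γ z.1 z.2 * (f z.1 * (u z.2).re) : ℝ) : ℂ)) := j1.ofReal
      have j2' : Integrable (fun z : ℝ × ℝ =>
        ((GC γ z.1 z.2 * (f z.1 * (u z.2).im) : ℝ) : ℂ) * I) := j2.ofReal.mul_const I
      rw [a1, a2, ← integral_mul_const, ← integral_sub j1' j2']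
      congr 1; funext z
      have : conj (u z.2) = ((u z.2).re : ℂ) - ((u z.2).im : ℂ) * I := by
        apply Complex.ext <;> simp
      rw [this]; push_cast; ring
    have e3 : ⟪hu.toLp, (μ : ℂ) • hF.toLp⟫_ℂ =
        ((μ * ∫ s, f s * (u s).re : ℝ) : ℂ) - ((μ * ∫ s, f s * (u s).im : ℝ) : ℂ) * I := by
      rw [inner_smul_right, L2.inner_def]
      have b1 : ((∫ s, f s * (u s).re : ℝ) : ℂ) = ∫ s, ((f s * (u s).re : ℝ) : ℂ) :=
        integral_ofReal.symm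
      have b2 : ((∫ s, f s * (u s).im : ℝ) : ℂ) = ∫ s, ((f s * (u s).im : ℝ) : ℂ) :=
        integral_ofReal.symm
      have k1 : Integrable (fun s => f s * (u s).re) := hf.integrable_mul hre
      have k2 : Integrable (fun s => f s * (u s).im) := hf.integrable_mul him
      have k1' : Integrable (fun s => ((f s * (u s).re : ℝ) : ℂ)) := k1.ofReal
      have k2' : Integrable (fun s => ((f s * (u s).im : ℝ) : ℂ) * I) := k2.ofReal.mul_const I
      rw [Complex.ofReal_mul, Complex.ofReal_mul, b1, b2, mul_assoc, ← mul_sub,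
        ← integral_mul_const, ← integral_sub k1' k2']
      congr 1
      refine integral_congr_ae ?_
      filter_upwards [hu.coeFn_toLp, hF.coeFn_toLp] with s a b
      rw [a, b, RCLike.inner_apply]
      have : conj (u s) = ((u s).re : ℂ) - ((u s).im : ℂ) * I := by
        apply Complex.ext <;> simp
      rw [this]; push_cast; ring
    rw [e2, e3, i1, i2]
  exact sub_eq_zero.1 h0

include hγ hinj hK hk hL1 in
/-- every element of `L²` gives a Sobolev triple -/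
lemma triple_of (Θ : L2V) : SobolevTrace γ (A0 Θ) (fun i => A1 i Θ) (TT hL Θ) := by
  refine ⟨Lp.memLp _, fun i => Lp.memLp _, Lp.memLp _, ?_⟩
  obtain ⟨x, hx, hxl⟩ := mem_closure_iff_seq_limit.1 (SS_dense Θ)
  choose θ hθ using hx
  have hl : Tendsto (fun n => SS (θ n)) atTop (𝓝 Θ) := by simpa [hθ] using hxl
  refine ⟨fun n => JJ (θ n), ?_, fun i => ?_, ?_⟩
  · have h1 : Tendsto (fun n => SS (JJ (θ n))) atTop (𝓝 (A0 Θ)) := by
      simp_rw [← A0_SS]; exact (A0.continuous.tendsto Θ).comp hl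
    rw [Lp.tendsto_Lp_iff_tendsto_eLpNorm'] at h1
    refine h1.congr fun n => eLpNorm_congr_ae ?_
    filter_upwards [(JJ (θ n)).coeFn_toLp 2 volume] with x a
    have a' : (SS (JJ (θ n)) : E2 → ℂ) x = JJ (θ n) x := a
    rw [Pi.sub_apply, a']
  · have h1 : Tendsto (fun n => SS (DD i (JJ (θ n)))) atTop (𝓝 (A1 i Θ)) := by
      simp_rw [← A1_SS]; exact ((A1 i).continuous.tendsto Θ).comp hl
    rw [Lp.tendsto_Lp_iff_tendsto_eLpNorm'] at h1
    refine h1.congr fun n => eLpNorm_congr_ae ?_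
    filter_upwards [(DD i (JJ (θ n))).coeFn_toLp 2 volume] with x a
    have a' : (SS (DD i (JJ (θ n))) : E2 → ℂ) x = DD i (JJ (θ n)) x := a
    rw [Pi.sub_apply, a', DD_apply]
  · have h1 : Tendsto (fun n => TR hL (JJ (θ n))) atTop (𝓝 (TT hL Θ)) := by
      simp_rw [← TT_SS hγ hinj hK hk hL1 hL]; exact ((TT hL).continuous.tendsto Θ).comp hl
    rw [Lp.tendsto_Lp_iff_tendsto_eLpNorm'] at h1
    refine h1.congr fun n => eLpNorm_congr_ae ?_
    filter_upwards [(hL (JJ (θ n))).coeFn_toLp] with s a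
    have a' : (TR hL (JJ (θ n)) : ℝ → ℂ) s = JJ (θ n) (γ s) := a
    rw [Pi.sub_apply, a']

include hγ hinj hK hk hL1 in
/-- every Sobolev triple comes from an element of `L²` -/
lemma of_triple {φ : E2 → ℂ} {h : Fin 2 → E2 → ℂ} {τ : ℝ → ℂ} (H : SobolevTrace γ φ h τ) :
    ∃ Θ : L2V, (A0 Θ : E2 → ℂ) =ᵐ[volume] φ ∧ (∀ i, (A1 i Θ : E2 → ℂ) =ᵐ[volume] h i) ∧
      (TT hL Θ : ℝ → ℂ) =ᵐ[volume] τ := by
  obtain ⟨h1, h2, h3, f, hf1, hf2, hf3⟩ := H
  have t1 : Tendsto (fun n => SS (f n)) atTop (𝓝 h1.toLp) := by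
    rw [Lp.tendsto_Lp_iff_tendsto_eLpNorm']
    refine hf1.congr fun n => eLpNorm_congr_ae ?_
    filter_upwards [(f n).coeFn_toLp 2 volume, h1.coeFn_toLp] with x a b
    have a' : (SS (f n) : E2 → ℂ) x = f n x := a
    rw [Pi.sub_apply, a', b]
  have t2 : ∀ i, Tendsto (fun n => SS (DD i (f n))) atTop (𝓝 (h2 i).toLp) := by
    intro i
    rw [Lp.tendsto_Lp_iff_tendsto_eLpNorm']
    refine (hf2 i).congr fun n => eLpNorm_congr_ae ?_
    filter_upwards [(DD i (f n)).coeFn_toLp 2 volume, (h2 i).coeFn_toLp] with x a b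
    have a' : (SS (DD i (f n)) : E2 → ℂ) x = DD i (f n) x := a
    rw [Pi.sub_apply, a', b, DD_apply]
  have t3 : Tendsto (fun n => TR hL (f n)) atTop (𝓝 h3.toLp) := by
    rw [Lp.tendsto_Lp_iff_tendsto_eLpNorm']
    refine hf3.congr fun n => eLpNorm_congr_ae ?_
    filter_upwards [(hL (f n)).coeFn_toLp, h3.coeFn_toLp] with s a b
    have a' : (TR hL (f n) : ℝ → ℂ) s = f n (γ s) := a
    rw [Pi.sub_apply, a', b]
  -- the sequence JI (f n) is Cauchy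
  have hc : CauchySeq (fun n => SS (JI (f n))) := by
    rw [Metric.cauchySeq_iff']
    have c1 := Metric.cauchySeq_iff'.1 t1.cauchySeq
    have c2 := fun i => Metric.cauchySeq_iff'.1 (t2 i).cauchySeq
    have key : ∀ n m, ‖SS (JI (f n)) - SS (JI (f m))‖ ^ 2 =
        ‖SS (f n) - SS (f m)‖ ^ 2 + ∑ i, ‖SS (DD i (f n)) - SS (DD i (f m))‖ ^ 2 := by
      intro n m
      rw [← norm_sq_A (SS (JI (f n)) - SS (JI (f m)))]
      simp only [map_sub, A0_SS, A1_SS, JJ_JI]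
    intro ε hε
    have l : Tendsto (fun p : ℕ × ℕ => ‖SS (f p.1) - SS (f p.2)‖ ^ 2 +
        ∑ i, ‖SS (DD i (f p.1)) - SS (DD i (f p.2))‖ ^ 2) (atTop ×ˢ atTop) (𝓝 (‖h1.toLp - h1.toLp‖ ^ 2
          + ∑ i, ‖(h2 i).toLp - (h2 i).toLp‖ ^ 2)) := by
      refine Tendsto.add ?_ ?_
      · exact (((t1.comp tendsto_fst).sub (t1.comp tendsto_snd)).norm.pow 2)
      · exact tendsto_finset_sum _ fun i _ =>
          ((((t2 i).comp tendsto_fst).sub ((t2 i).comp tendsto_snd)).norm.pow 2)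
    simp only [sub_self, norm_zero, ne_eq, OfNat.ofNat_ne_zero, not_false_eq_true, zero_pow,
      Finset.sum_const_zero, add_zero] at l
    have l2 := l.eventually (gt_mem_nhds (show (0:ℝ) < ε ^ 2 by positivity))
    rw [prod_atTop_atTop_eq, eventually_atTop] at l2
    obtain ⟨⟨a, b⟩, hab⟩ := l2
    refine ⟨max a b, fun n hn => ?_⟩
    have h5 := hab (n, max a b) ⟨(le_max_left a b).trans hn, le_max_right a b⟩
    simp only at h5
    rw [← key] at h5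
    rw [dist_eq_norm]
    exact lt_of_pow_lt_pow_left₀ 2 hε.le h5
  obtain ⟨Θ, hΘ⟩ := cauchySeq_tendsto_of_complete hc
  refine ⟨Θ, ?_, fun i => ?_, ?_⟩
  · have : Tendsto (fun n => A0 (SS (JI (f n)))) atTop (𝓝 (A0 Θ)) := (A0.continuous.tendsto Θ).comp hΘ
    simp only [A0_SS, JJ_JI] at this
    rw [tendsto_nhds_unique this t1]
    exact h1.coeFn_toLp
  · have : Tendsto (fun n => A1 i (SS (JI (f n)))) atTop (𝓝 (A1 i Θ)) :=
      ((A1 i).continuous.tendsto Θ).comp hΘ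
    simp only [A1_SS, JJ_JI] at this
    rw [tendsto_nhds_unique this (t2 i)]
    exact (h2 i).coeFn_toLp
  · have : Tendsto (fun n => TT hL (SS (JI (f n)))) atTop (𝓝 (TT hL Θ)) :=
      ((TT hL).continuous.tendsto Θ).comp hΘ
    simp only [TT_SS hγ hinj hK hk hL1 hL, JJ_JI] at this
    rw [tendsto_nhds_unique this t3]
    exact h3.coeFn_toLp

include hγ hinj hK hk hL1 in
/-- eigenfunction of the operator -/
lemma op_eig {f : ℝ → ℝ} (hf : MemLp f 2 volume) {μ : ℝ} (hμ : 0 < μ)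
    (hfe : ∀ h : ℝ → ℝ, MemLp h 2 volume → Bil (GC γ) f h = μ * ∫ s, f s * h s)
    (hF : MemLp (fun s => ((f s : ℝ) : ℂ)) 2 volume) :
    OpRel (1 / μ) γ (A0 ((ContinuousLinearMap.adjoint (TT hL)) hF.toLp))
      (fun x => ((-1 : ℝ) : ℂ) * (A0 ((ContinuousLinearMap.adjoint (TT hL)) hF.toLp) : E2 → ℂ) x) := by
  set Θ := (ContinuousLinearMap.adjoint (TT hL)) hF.toLp with hΘ
  have hT := TTadj_eig hγ hinj hK hk hL1 hL hf hfe hF
  rw [← hΘ] at hT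
  refine ⟨(Lp.memLp (A0 Θ)).const_mul _, _, _, triple_of hγ hinj hK hk hL1 hL Θ, ?_⟩
  intro φ h τ H
  obtain ⟨Θ', a0, a1, a2⟩ := of_triple hγ hinj hK hk hL1 hL H
  have e0 : ∫ x, ((-1 : ℝ) : ℂ) * (A0 Θ : E2 → ℂ) x * conj (φ x) = -⟪A0 Θ', A0 Θ⟫_ℂ := by
    rw [L2.inner_def, ← integral_neg]
    refine integral_congr_ae ?_
    filter_upwards [a0] with x hx
    rw [← hx, RCLike.inner_apply]; push_cast; ring
  have e1 : ∀ i, ∫ x, (A1 i Θ : E2 → ℂ) x * conj (h i x) = ⟪A1 i Θ', A1 i Θ⟫_ℂ := by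
    intro i
    rw [L2.inner_def]
    refine integral_congr_ae ?_
    filter_upwards [a1 i] with x hx
    rw [← hx, RCLike.inner_apply]
  have e2 : ∫ s, (TT hL Θ : ℝ → ℂ) s * conj (τ s) = ⟪TT hL Θ', TT hL Θ⟫_ℂ := by
    rw [L2.inner_def]
    refine integral_congr_ae ?_
    filter_upwards [a2] with x hx
    rw [← hx, RCLike.inner_apply]
  rw [e0, e2]
  simp_rw [e1]
  have h1 := inner_A Θ' Θ
  have h2 : ⟪Θ', Θ⟫_ℂ = ⟪TT hL Θ', hF.toLp⟫_ℂ := by
    rw [hΘ, ContinuousLinearMap.adjoint_inner_right]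
  rw [hT, inner_smul_right]
  have hμc : (μ : ℂ) ≠ 0 := by exact_mod_cast hμ.ne'
  have h3 : ((1 / μ : ℝ) : ℂ) * ((μ : ℂ) * ⟪TT hL Θ', hF.toLp⟫_ℂ) = ⟪TT hL Θ', hF.toLp⟫_ℂ := by
    push_cast; field_simp
  rw [h3, ← h2, ← h1]
  ring

end main

theorem bs_thm (hK1 : S_K1) (hKB : S_KB) : S_BS := by
  intro γ c hc hγ hlow μ hμ f₁ f₂ hf₁ hf₂ hN₁ hN₂ horth he₁ he₂
  have hK := hKB.kC γ c hc hγ hlow
  have hk := hK1.nonneg
  have hinj : ∀ s s', s ≠ s' → γ s ≠ γ s' := by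
    intro s s' hs h
    have h1 := hlow s s'
    rw [h, sub_self, norm_zero] at h1
    have h2 : 0 < |s - s'| := abs_pos.2 (sub_ne_zero.2 hs)
    nlinarith [mul_pos hc h2]
  have hL1 := comp_int hγ hc hlow
  have hL := comp_memLp hγ hc hlow
  have hF₁ : MemLp (fun s => ((f₁ s : ℝ) : ℂ)) 2 volume := hf₁.ofReal
  have hF₂ : MemLp (fun s => ((f₂ s : ℝ) : ℂ)) 2 volume := hf₂.ofReal
  refine ⟨_, _, op_eig hγ hinj hK hk hL1 hL hf₁ hμ he₁ hF₁,
    op_eig hγ hinj hK hk hL1 hL hf₂ hμ he₂ hF₂, ?_⟩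
  intro a b hab
  set Θ₁ := (ContinuousLinearMap.adjoint (TT hL)) hF₁.toLp
  set Θ₂ := (ContinuousLinearMap.adjoint (TT hL)) hF₂.toLp
  have h1 : A0 (a • Θ₁ + b • Θ₂) = 0 := by
    rw [map_add, map_smul, map_smul]
    refine Lp.ext ?_
    filter_upwards [hab, Lp.coeFn_add (a • A0 Θ₁) (b • A0 Θ₂), Lp.coeFn_smul a (A0 Θ₁),
      Lp.coeFn_smul b (A0 Θ₂), Lp.coeFn_zero ℂ 2 (volume : Measure E2)] with x h1 h2 h3 h4 h5
    rw [h2, h5, Pi.add_apply, h3, h4, Pi.smul_apply, Pi.smul_apply, smul_eq_mul, smul_eq_mul]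
    exact h1
  have h2 := A0_inj _ h1
  have h3 : a • hF₁.toLp + b • hF₂.toLp = 0 := by
    have h4 : TT hL (a • Θ₁ + b • Θ₂) = 0 := by rw [h2, map_zero]
    rw [map_add, map_smul, map_smul, TTadj_eig hγ hinj hK hk hL1 hL hf₁ he₁ hF₁,
      TTadj_eig hγ hinj hK hk hL1 hL hf₂ he₂ hF₂, smul_comm a, smul_comm b, ← smul_add] at h4
    have hμc : (μ : ℂ) ≠ 0 := by exact_mod_cast hμ.ne'
    exact (smul_eq_zero.1 h4).resolve_left hμc
  have hin : ∀ {f h : ℝ → ℝ} (hf : MemLp (fun s => ((f s : ℝ) : ℂ)) 2 volume)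
      (hh : MemLp (fun s => ((h s : ℝ) : ℂ)) 2 volume),
      ⟪hf.toLp, hh.toLp⟫_ℂ = ((∫ s, f s * h s : ℝ) : ℂ) := by
    intro f h hf hh
    have : ((∫ s, f s * h s : ℝ) : ℂ) = ∫ s, ((f s * h s : ℝ) : ℂ) := integral_ofReal.symm
    rw [L2.inner_def, this]
    refine integral_congr_ae ?_
    filter_upwards [hf.coeFn_toLp, hh.coeFn_toLp] with s a b
    rw [a, b, RCLike.inner_apply]
    have : conj ((f s : ℝ) : ℂ) = ((f s : ℝ) : ℂ) := Complex.conj_ofReal _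
    rw [this]; push_cast; ring
  have hNN : ∀ f : ℝ → ℝ, ∫ s, f s * f s = N f := by
    intro f; unfold N; congr 1; funext s; ring
  have horth' : ∫ s, f₂ s * f₁ s = 0 := by
    rw [← horth]; congr 1; funext s; ring
  constructor
  · have h5 : ⟪hF₁.toLp, a • hF₁.toLp + b • hF₂.toLp⟫_ℂ = 0 := by rw [h3, inner_zero_right]
    rw [inner_add_right, inner_smul_right, inner_smul_right, hin, hin, horth, hNN] at h5
    have : ((N f₁ : ℝ) : ℂ) ≠ 0 := by exact_mod_cast hN₁.ne'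
    simpa [this] using h5
  · have h5 : ⟪hF₂.toLp, a • hF₁.toLp + b • hF₂.toLp⟫_ℂ = 0 := by rw [h3, inner_zero_right]
    rw [inner_add_right, inner_smul_right, inner_smul_right, hin, hin, horth', hNN] at h5
    have : ((N f₂ : ℝ) : ℂ) ≠ 0 := by exact_mod_cast hN₂.ne'
    simpa [this] using h5

end Pool.Agent.Helper94.LK
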