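import Mathlib

/-!
MP_e4073d_mp : definitions shared by all parts.
-/

open MeasureTheory Filter Topology Set
open scoped ENNReal InnerProductSpace SchwartzMap ComplexConjugate

namespace Pool.Agent.Helper94.LK

/-- the Euclidean plane -/
abbrev E2 := EuclideanSpace ℝ (Fin 2)

/-- real `L²(ℝ)` -/
noncomputable abbrev X := Lp ℝ 2 (volume : Measure ℝ)

/-! ### the final statement -/

/-- Hypotheses on the curve `γ`: continuous, piecewise `C¹` and parametrised by arc length,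
and (a1), (a2), (a3). -/
structure Admissible (γ : ℝ → E2) : Prop where
  cont : Continuous γ
  piecewise : ∃ (F : Finset ℝ) (v : ℝ → E2),
    (∀ s ∉ F, HasDerivAt γ (v s) s ∧ ‖v s‖ = 1 ∧ ContinuousAt v s) ∧
    (∀ s ∈ F, (∃ l, Tendsto v (𝓝[<] s) (𝓝 l)) ∧ ∃ r, Tendsto v (𝓝[>] s) (𝓝 r))
  a1 : ∃ c : ℝ, 0 < c ∧ c < 1 ∧ ∀ s s', c * |s - s'| ≤ ‖γ s - γ s'‖
  a2 : ∃ d μ ω : ℝ, 0 < d ∧ 1 / 2 < μ ∧ 0 < ω ∧ ω < 1 ∧ ∀ s s', s ≠ s' → s' ≠ 0 →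
    ω < s / s' → s / s' < ω⁻¹ →
      1 - ‖γ s - γ s'‖ / |s - s'| ≤ d * (1 + |s + s'| ^ (2 * μ)) ^ (-(1 / 2) : ℝ)
  a3 : ∃ s s', ‖γ s - γ s'‖ < |s - s'|

/-- the `i`-th partial derivative of a Schwartz function -/
noncomputable def pd (i : Fin 2) (φ : 𝓢(E2, ℂ)) (x : E2) : ℂ :=
  fderiv ℝ φ x (EuclideanSpace.single i 1)

/-- `ψ ∈ W^{1,2}(ℝ²)` with gradient `g` and trace `t = ψ ∘ γ`: the triple is the limit, in
`L²(ℝ²) × L²(ℝ²)² × L²(ℝ)`, of the triples `(φ, ∇φ, φ ∘ γ)` with `φ` Schwartz functions. -/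
def SobolevTrace (γ : ℝ → E2) (ψ : E2 → ℂ) (g : Fin 2 → E2 → ℂ) (t : ℝ → ℂ) : Prop :=
  MemLp ψ 2 volume ∧ (∀ i, MemLp (g i) 2 volume) ∧ MemLp t 2 volume ∧
  ∃ φ : ℕ → 𝓢(E2, ℂ),
    Tendsto (fun n => eLpNorm (fun x => φ n x - ψ x) 2 volume) atTop (𝓝 0) ∧
    (∀ i, Tendsto (fun n => eLpNorm (fun x => pd i (φ n) x - g i x) 2 volume) atTop (𝓝 0)) ∧
    Tendsto (fun n => eLpNorm (fun s => φ n (γ s) - t s) 2 volume) atTop (𝓝 0)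

/-- `ψ` is in the domain of `H_{α,Γ}` and `H_{α,Γ} ψ = f` (the operator associated with the
quadratic form `∫ |∇ψ|² - α ∫ |ψ(γ(s))|² ds`, form domain `W^{1,2}(ℝ²)`). -/
def OpRel (α : ℝ) (γ : ℝ → E2) (ψ f : E2 → ℂ) : Prop :=
  MemLp f 2 volume ∧ ∃ g t, SobolevTrace γ ψ g t ∧
    ∀ φ h τ, SobolevTrace γ φ h τ →
      (∑ i, ∫ x, g i x * conj (h i x)) - α * ∫ s, t s * conj (τ s) = ∫ x, f x * conj (φ x)

/-- The eigenvalue `lam` of `H_{α,Γ}` has multiplicity at least two. -/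
def MultTwo (α : ℝ) (γ : ℝ → E2) (lam : ℝ) : Prop :=
  ∃ ψ₁ ψ₂ : E2 → ℂ,
    OpRel α γ ψ₁ (fun x => lam * ψ₁ x) ∧ OpRel α γ ψ₂ (fun x => lam * ψ₂ x) ∧
    ∀ a b : ℂ, (∀ᵐ x, a * ψ₁ x + b * ψ₂ x = 0) → a = 0 ∧ b = 0

/-! ### the kernel -/

/-- `kap r = ∫_0^∞ (4πt)⁻¹ e^{-t-r²/(4t)} dt = K₀(r)/(2π)` for `r > 0`. -/
noncomputable def kap (r : ℝ) : ℝ :=
  ∫ t in Ioi (0 : ℝ), (4 * Real.pi * t)⁻¹ * Real.exp (-t - r ^ 2 / (4 * t))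

/-- `∫ f²` -/
noncomputable def N (f : ℝ → ℝ) : ℝ := ∫ s, f s ^ 2

/-- bilinear form of a kernel -/
noncomputable def Bil (G : ℝ → ℝ → ℝ) (f h : ℝ → ℝ) : ℝ :=
  ∫ z : ℝ × ℝ, G z.1 z.2 * (f z.1 * h z.2)

/-- bounded kernel form on `L²(ℝ)` -/
structure KerBdd (G : ℝ → ℝ → ℝ) (M : ℝ) : Prop where
  hM : 0 ≤ M
  meas : Measurable (Function.uncurry G)
  int : ∀ f h : ℝ → ℝ, MemLp f 2 volume → MemLp h 2 volume →
    Integrable (fun z : ℝ × ℝ => G z.1 z.2 * (f z.1 * h z.2))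
  bd : ∀ f h : ℝ → ℝ, MemLp f 2 volume → MemLp h 2 volume →
    |Bil G f h| ≤ M * √(N f) * √(N h)

/-- clamp of `s` to `[-L, L]` -/
noncomputable def cl (L s : ℝ) : ℝ := max (-L) (min L s)

/-- the symmetric polygonal curve with vertices at `s = -L, 0, L`: for `0 ≤ s ≤ L` direction
`(p, -q)`, `q = √(1-p²)`; for `s ≥ L` direction `(4/5 p + 3/5 q, 3/5 p - 4/5 q)`; mirrored for
`s ≤ 0`. -/
noncomputable def crv (p L s : ℝ) : E2 :=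
  !₂[p * cl L s + (4 / 5 * p + 3 / 5 * √(1 - p ^ 2)) * (s - cl L s),
     -√(1 - p ^ 2) * |cl L s| + (3 / 5 * p - 4 / 5 * √(1 - p ^ 2)) * |s - cl L s|]

/-- the curve with one bend (at `s = 0`): direction `(1,0)` then `(4/5, 3/5)`. -/
noncomputable def bnd (s : ℝ) : E2 := !₂[min s 0 + 4 / 5 * max s 0, 3 / 5 * max s 0]

/-- kernel of the straight line -/
noncomputable def GS (s s' : ℝ) : ℝ := kap |s - s'|

/-- kernel of a curve -/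
noncomputable def GC (γ : ℝ → E2) (s s' : ℝ) : ℝ := kap ‖γ s - γ s'‖

/-- tent function -/
noncomputable def tent (m w s : ℝ) : ℝ := max 0 (1 - |s - m| / w)

end Pool.Agent.Helper94.LK
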