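import Pool.Agent.Helper94.LK.Spec

open MeasureTheory Filter Topology Set
open scoped ENNReal InnerProductSpace SchwartzMap ComplexConjugate

namespace Pool.Agent.Helper94.LK

section
variable {E : Type*} [NormedAddCommGroup E] [NormedSpace ℝ E] [MeasurableSpace E] [BorelSpace E]
  [FiniteDimensional ℝ E] (μ : Measure E) [μ.IsAddHaarMeasure]

lemma eLpNorm_dil {c : ℝ} (hc : c ≠ 0) {f : E → ℂ} (hf : AEStronglyMeasurable f μ) :
    eLpNorm (fun x => f (c • x)) 2 μ =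
      (ENNReal.ofReal |(c ^ Module.finrank ℝ E)⁻¹|) ^ (1 / (2:ℝ≥0∞)).toReal * eLpNorm f 2 μ := by
  have h1 := Measure.map_addHaar_smul μ hc
  have hm : Measurable fun x : E => c • x := measurable_const_smul c
  have h2 : AEStronglyMeasurable f (Measure.map (c • ·) μ) := by
    rw [h1]; exact hf.smul_measure _
  have h3 := eLpNorm_map_measure (p := 2) h2 hm.aemeasurable
  rw [h1, eLpNorm_smul_measure_of_ne_top (by norm_num)] at h3
  rw [smul_eq_mul] at h3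
  rw [h3]; rfl

lemma memLp_dil {c : ℝ} (hc : c ≠ 0) {f : E → ℂ} (hf : MemLp f 2 μ) :
    MemLp (fun x => f (c • x)) 2 μ := by
  have hm : Measurable fun x : E => c • x := measurable_const_smul c
  refine ⟨?_, ?_⟩
  · have h1 := Measure.map_addHaar_smul μ hc
    have h2 : AEStronglyMeasurable f (Measure.map (c • ·) μ) := by
      rw [h1]; exact hf.1.smul_measure _
    exact h2.comp_measurable hm
  · rw [eLpNorm_dil μ hc hf.1]
    refine ENNReal.mul_lt_top ?_ hf.2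
    exact ENNReal.rpow_lt_top_of_nonneg (by simp) ENNReal.ofReal_ne_top

lemma tendsto_dil {c : ℝ} (hc : c ≠ 0) {f : ℕ → E → ℂ} {g : E → ℂ}
    (hf : ∀ n, AEStronglyMeasurable (f n) μ) (hg : AEStronglyMeasurable g μ)
    (h : Tendsto (fun n => eLpNorm (fun x => f n x - g x) 2 μ) atTop (𝓝 0)) :
    Tendsto (fun n => eLpNorm (fun x => f n (c • x) - g (c • x)) 2 μ) atTop (𝓝 0) := by
  have h1 : ∀ n, eLpNorm (fun x => f n (c • x) - g (c • x)) 2 μ =
      (ENNReal.ofReal |(c ^ Module.finrank ℝ E)⁻¹|) ^ (1 / (2:ℝ≥0∞)).toReal *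
        eLpNorm (fun x => f n x - g x) 2 μ := by
    intro n
    exact eLpNorm_dil μ hc (f := fun x => f n x - g x) ((hf n).sub hg)
  simp_rw [h1]
  have h2 := ENNReal.Tendsto.const_mul (a := (ENNReal.ofReal |(c ^ Module.finrank ℝ E)⁻¹|) ^
    (1 / (2:ℝ≥0∞)).toReal) h (Or.inr (by
      exact (ENNReal.rpow_lt_top_of_nonneg (by simp) ENNReal.ofReal_ne_top).ne))
  simpa using h2

end

/-- dilated Schwartz function -/
noncomputable def dil (c : ℝ) (hc : c ≠ 0) (φ : 𝓢(E2, ℂ)) : 𝓢(E2, ℂ) :=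
  SchwartzMap.compCLMOfContinuousLinearEquiv ℂ
    (ContinuousLinearEquiv.smulLeft (M₁ := E2) (R₁ := ℝ) (Units.mk0 c hc)) φ

lemma dil_apply (c : ℝ) (hc : c ≠ 0) (φ : 𝓢(E2, ℂ)) (x : E2) : dil c hc φ x = φ (c • x) := rfl

lemma pd_dil (c : ℝ) (hc : c ≠ 0) (φ : 𝓢(E2, ℂ)) (i : Fin 2) (x : E2) :
    pd i (dil c hc φ) x = (c : ℂ) * pd i φ (c • x) := by
  unfold pd
  have h1 : (dil c hc φ : E2 → ℂ) = fun x => φ (c • x) := rfl
  rw [h1, fderiv_comp_smul]
  simp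

/-- scaled curve -/
noncomputable def scv (r : ℝ) (γ : ℝ → E2) (s : ℝ) : E2 := r • γ (r⁻¹ * s)

lemma pd_aesm (i : Fin 2) (φ : 𝓢(E2, ℂ)) : AEStronglyMeasurable (pd i φ) volume := by
  have h : Continuous (pd i φ) := by
    have h1 : ContDiff ℝ 1 φ := φ.smooth 1
    have h2 : Continuous (fderiv ℝ φ) := h1.continuous_fderiv (by norm_num)
    exact h2.clm_apply continuous_const
  exact h.aestronglyMeasurable

lemma SobolevTrace.scale {γ : ℝ → E2} (hγ : Continuous γ) {r : ℝ} (hr : 0 < r) {ψ : E2 → ℂ}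
    {g : Fin 2 → E2 → ℂ} {t : ℝ → ℂ} (h : SobolevTrace γ ψ g t) :
    SobolevTrace (scv r γ) (fun x => ψ (r⁻¹ • x)) (fun i x => ((r⁻¹ : ℝ) : ℂ) * g i (r⁻¹ • x))
      (fun s => t (r⁻¹ * s)) := by
  obtain ⟨h1, h2, h3, φ, f1, f2, f3⟩ := h
  have hr' : r⁻¹ ≠ 0 := (inv_pos.2 hr).ne'
  refine ⟨memLp_dil _ hr' h1, fun i => (memLp_dil _ hr' (h2 i)).const_mul _,
    memLp_dil volume hr' h3, fun n => dil r⁻¹ hr' (φ n), ?_, fun i => ?_, ?_⟩
  · exact tendsto_dil volume hr' (fun n => (φ n).continuous.aestronglyMeasurable) h1.1 f1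
  · have h4 := tendsto_dil volume hr' (fun n => pd_aesm i (φ n)) (h2 i).1 (f2 i)
    have h5 : ∀ n, eLpNorm (fun x => pd i (dil r⁻¹ hr' (φ n)) x - ((r⁻¹ : ℝ) : ℂ) * g i (r⁻¹ • x)) 2
        volume = ‖((r⁻¹ : ℝ) : ℂ)‖ₑ *
          eLpNorm (fun x => pd i (φ n) (r⁻¹ • x) - g i (r⁻¹ • x)) 2 volume := by
      intro n
      have : (fun x => pd i (dil r⁻¹ hr' (φ n)) x - ((r⁻¹ : ℝ) : ℂ) * g i (r⁻¹ • x)) =
          ((r⁻¹ : ℝ) : ℂ) • fun x => pd i (φ n) (r⁻¹ • x) - g i (r⁻¹ • x) := by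
        funext x
        rw [pd_dil, Pi.smul_apply, smul_eq_mul]; ring
      rw [this, eLpNorm_const_smul]
    simp_rw [h5]
    have h6 := ENNReal.Tendsto.const_mul (a := ‖((r⁻¹ : ℝ) : ℂ)‖ₑ) h4 (Or.inr (by simp))
    simpa using h6
  · have h4 := tendsto_dil (volume : Measure ℝ) hr' (f := fun n s => φ n (γ s))
      (fun n => ((φ n).continuous.comp hγ).aestronglyMeasurable) h3.1 f3
    have h5 : ∀ n, (fun s => dil r⁻¹ hr' (φ n) (scv r γ s) - t (r⁻¹ * s)) =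
        fun s => φ n (γ (r⁻¹ • s)) - t (r⁻¹ • s) := by
      intro n; funext s
      rw [dil_apply, scv, smul_smul, inv_mul_cancel₀ hr.ne', one_smul, smul_eq_mul]
    simp_rw [h5]
    exact h4

lemma scv_scv {γ : ℝ → E2} {r : ℝ} (hr : 0 < r) : scv r⁻¹ (scv r γ) = γ := by
  funext s
  unfold scv
  rw [smul_smul, inv_mul_cancel₀ hr.ne', one_smul, ← mul_assoc, inv_inv, inv_mul_cancel₀ hr.ne',
    one_mul]

lemma OpRel.scale {γ : ℝ → E2} (hγ : Continuous γ) {r : ℝ} (hr : 0 < r) {α : ℝ} {ψ f : E2 → ℂ}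
    (h : OpRel α γ ψ f) :
    OpRel (α / r) (scv r γ) (fun x => ψ (r⁻¹ • x)) (fun x => (((r ^ 2)⁻¹ : ℝ) : ℂ) * f (r⁻¹ • x)) := by
  obtain ⟨hf, g, t, hT, hE⟩ := h
  have hr' : r⁻¹ ≠ 0 := (inv_pos.2 hr).ne'
  refine ⟨(memLp_dil _ hr' hf).const_mul _, _, _, hT.scale hγ hr, ?_⟩
  intro φ' h' τ' H'
  have hγ' : Continuous (scv r γ) := by unfold scv; fun_prop
  have H := H'.scale hγ' (inv_pos.2 hr)
  rw [scv_scv hr] at H
  have hE' := hE _ _ _ H
  simp only [inv_inv] at hE'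
  have fr : Module.finrank ℝ E2 = 2 := by simp
  have e1 : ∀ i, ∫ x, g i x * conj (((r : ℝ) : ℂ) * h' i (r • x)) =
      ∫ x, ((r⁻¹ : ℝ) : ℂ) * g i (r⁻¹ • x) * conj (h' i x) := by
    intro i
    have := Measure.integral_comp_smul (volume : Measure E2)
      (fun x => ((r⁻¹ : ℝ) : ℂ) * g i (r⁻¹ • x) * conj (h' i x)) r
    rw [fr] at this
    simp only [smul_smul, inv_mul_cancel₀ hr.ne', one_smul] at this
    have h7 : ∫ x, ((r⁻¹ : ℝ) : ℂ) * g i (r⁻¹ • x) * conj (h' i x) =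
        ((r ^ 2 : ℝ) : ℂ) * ∫ x, ((r⁻¹ : ℝ) : ℂ) * g i x * conj (h' i (r • x)) := by
      rw [this, abs_of_pos (by positivity), Complex.real_smul, ← mul_assoc, ← Complex.ofReal_mul,
        mul_inv_cancel₀ (by positivity), Complex.ofReal_one, one_mul]
    rw [h7, ← integral_const_mul]
    congr 1; funext x
    rw [map_mul, Complex.conj_ofReal]
    have hrc : (r : ℂ) ≠ 0 := by exact_mod_cast hr.ne'
    push_cast
    field_simp
  have e2 : ∫ s, t s * conj (τ' (r * s)) = ((r⁻¹ : ℝ) : ℂ) * ∫ s, t (r⁻¹ * s) * conj (τ' s) := by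
    have := Measure.integral_comp_smul (volume : Measure ℝ)
      (fun s => t (r⁻¹ * s) * conj (τ' s)) r
    simp only [Module.finrank_self, pow_one, smul_eq_mul, ← mul_assoc, inv_mul_cancel₀ hr.ne',
      one_mul] at this
    rw [this, abs_of_pos (inv_pos.2 hr), Complex.real_smul]
  have e3 : ∫ x, f x * conj (φ' (r • x)) =
      ∫ x, (((r ^ 2)⁻¹ : ℝ) : ℂ) * f (r⁻¹ • x) * conj (φ' x) := by
    have := Measure.integral_comp_smul (volume : Measure E2)
      (fun x => f (r⁻¹ • x) * conj (φ' x)) r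
    rw [fr] at this
    simp only [smul_smul, inv_mul_cancel₀ hr.ne', one_smul] at this
    rw [this, abs_of_pos (by positivity), Complex.real_smul, ← integral_const_mul]
    congr 1; funext x; ring
  rw [e2, e3] at hE'
  simp_rw [e1] at hE'
  rw [← hE']
  push_cast
  ring

lemma MultTwo.scale {γ : ℝ → E2} (hγ : Continuous γ) {r : ℝ} (hr : 0 < r) {α lam : ℝ}
    (h : MultTwo α γ lam) : MultTwo (α / r) (scv r γ) (lam / r ^ 2) := by
  obtain ⟨ψ₁, ψ₂, h1, h2, h3⟩ := h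
  have hr' : r⁻¹ ≠ 0 := (inv_pos.2 hr).ne'
  have e : ∀ ψ : E2 → ℂ, (fun x => (((r ^ 2)⁻¹ : ℝ) : ℂ) * ((lam : ℂ) * ψ (r⁻¹ • x))) =
      fun x => ((lam / r ^ 2 : ℝ) : ℂ) * ψ (r⁻¹ • x) := by
    intro ψ; funext x; push_cast; ring
  refine ⟨fun x => ψ₁ (r⁻¹ • x), fun x => ψ₂ (r⁻¹ • x), ?_, ?_, ?_⟩
  · have := h1.scale hγ hr
    rwa [e ψ₁] at this
  · have := h2.scale hγ hr
    rwa [e ψ₂] at this
  · intro a b hab
    refine h3 a b ?_
    have hq : Measure.QuasiMeasurePreserving (fun x : E2 => r • x) volume volume := by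
      refine ⟨measurable_const_smul r, ?_⟩
      rw [Measure.map_addHaar_smul volume hr.ne']
      exact Measure.smul_absolutelyContinuous
    have := hq.ae hab
    simpa [smul_smul, inv_mul_cancel₀ hr.ne'] using this

end Pool.Agent.Helper94.LK
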