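import Pool.Agent.Helper94.LK.BS5
import Pool.Agent.Helper94.LK.Scale
import Pool.Agent.H25.LK.Top
import Pool.Agent.H25.LK.Gap
import Pool.Agent.Helper38.LK.K1
import Pool.Agent.Helper38.LK.K2
import Pool.Agent.Helper49.LK.ADM
import Pool.Agent.Helper49.LK.GEO
import Pool.Agent.Helper49.LK.HSB
import Pool.Agent.Helper53.LK.KB
import Pool.Agent.Helper53.LK.SCH
import Pool.Agent.Helper53.LK.TENT
import Pool.Agent.Helper6.LK.ONE
import Pool.Agent.Helper61.LK.CONT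
import Pool.Agent.Helper61.LK.EHS
import Pool.Agent.Helper61.LK.LO
import Pool.Agent.Helper71.LK.IMS
import Pool.Agent.Helper76.LK.THREEA
import Pool.Agent.Helper83.LK.UP
import Pool.Agent.Helper91.LK.ASM
import Pool.Agent.Helper93.LK.HSC
import Pool.Agent.Helper93.LK.PART
import Pool.Agent.Helper93.LK.POS

open MeasureTheory Filter Topology Set

namespace Pool.Agent.Helper94.LK

lemma f_SCH : S_SCH := Pool.Agent.Helper53.LK.sch_thm
lemma f_K1 : S_K1 := Pool.Agent.Helper38.LK.k1_thm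
lemma f_K2 : S_K2 := Pool.Agent.Helper38.LK.k2_thm
lemma f_K3 : S_K3 := Pool.Agent.Helper38.LK.k3_thm
lemma f_GEO : S_GEO := Pool.Agent.Helper49.LK.geo_thm
lemma f_ADM : S_ADM := Pool.Agent.Helper49.LK.adm_thm
lemma f_HSB : S_HSB := Pool.Agent.Helper49.LK.hsb_thm
lemma f_OP : S_OP := Pool.Agent.Helper49.LK.op_thm
lemma f_HSC : S_HSC := Pool.Agent.Helper93.LK.hsc_thm
lemma f_TOP : S_TOP := Pool.Agent.H25.LK.top_thm
lemma f_CROSS : S_CROSS := Pool.Agent.H25.LK.cross_thm f_TOP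
lemma f_GAP : S_GAP := Pool.Agent.H25.LK.gap_thm f_TOP
lemma f_KB : S_KB := Pool.Agent.Helper53.LK.kb_thm f_K1 f_K2 f_SCH
lemma f_TENT : S_TENT := Pool.Agent.Helper53.LK.tent_thm f_K1 f_K2 f_KB
lemma f_EHS : S_EHS := Pool.Agent.Helper61.LK.EHS_thm f_K1 f_K3 f_GEO
lemma f_CONT : S_CONT := Pool.Agent.Helper61.LK.CONT_thm f_K1 f_K3 f_GEO f_HSB f_KB
lemma f_LO : S_LO := Pool.Agent.Helper61.LK.LO_thm f_K1 f_K3 f_GEO f_KB
lemma f_IMS : S_IMS := ims_thm f_K1 f_K2 f_GEO f_KB f_SCH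
lemma f_PART : S_PART := Pool.Agent.Helper93.LK.part_thm
lemma f_UP : S_UP := Pool.Agent.Helper83.LK.up_thm f_PART f_IMS f_GEO f_TENT
lemma f_POS : S_POS := Pool.Agent.Helper93.LK.pos_thm f_K1 f_HSC f_OP f_GAP f_GEO f_KB f_EHS f_TENT
lemma f_ONE : S_ONE := Pool.Agent.Helper6.LK.one_thm f_K1 f_K3 f_GEO f_KB f_TENT
lemma f_THREEA : S_THREEA := Pool.Agent.Helper76.LK.threeA_thm f_K1 f_K2 f_GEO f_SCH f_KB
lemma f_BS : S_BS := bs_thm f_K1 f_KB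

lemma f_ASM (hB : S_THREEB) : S_ASM :=
  ASMPart.asm_thm f_OP f_HSC f_CROSS f_GEO f_KB f_EHS f_CONT f_TENT f_POS f_ONE f_UP f_LO f_THREEA hB

/-- scaling of the polygonal curve -/
lemma scv_crv (p L r : ℝ) (hr : 0 < r) : scv r (crv p L) = crv p (r * L) := by
  funext s
  have hc : r * cl L (r⁻¹ * s) = cl (r * L) s := by
    unfold cl
    rw [mul_max_of_nonneg _ _ hr.le, mul_min_of_nonneg _ _ hr.le]
    rw [← mul_assoc, mul_inv_cancel₀ hr.ne', one_mul, mul_neg]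
  have hd : r * (r⁻¹ * s - cl L (r⁻¹ * s)) = s - cl (r * L) s := by
    rw [mul_sub, hc, ← mul_assoc, mul_inv_cancel₀ hr.ne', one_mul]
  have ha : r * |cl L (r⁻¹ * s)| = |cl (r * L) s| := by
    rw [← hc, abs_mul, abs_of_pos hr]
  have hb : r * |r⁻¹ * s - cl L (r⁻¹ * s)| = |s - cl (r * L) s| := by
    rw [← hd, abs_mul, abs_of_pos hr]
  unfold scv crv
  ext i
  fin_cases i
  · show r * (p * cl L (r⁻¹ * s) + (4 / 5 * p + 3 / 5 * √(1 - p ^ 2)) *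
      (r⁻¹ * s - cl L (r⁻¹ * s))) = p * cl (r * L) s + (4 / 5 * p + 3 / 5 * √(1 - p ^ 2)) *
      (s - cl (r * L) s)
    rw [← hd, ← hc]; ring
  · show r * (-√(1 - p ^ 2) * |cl L (r⁻¹ * s)| + (3 / 5 * p - 4 / 5 * √(1 - p ^ 2)) *
      |r⁻¹ * s - cl L (r⁻¹ * s)|) = -√(1 - p ^ 2) * |cl (r * L) s| +
      (3 / 5 * p - 4 / 5 * √(1 - p ^ 2)) * |s - cl (r * L) s|
    rw [← hb, ← ha]; ring

theorem main_all (hB : S_THREEB) : ∀ α : ℝ, 0 < α → ∃ (γ : ℝ → E2) (lam : ℝ), Admissible γ ∧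
    lam < -(α ^ 2 / 4) ∧ MultTwo α γ lam := by
  intro α hα
  obtain ⟨p, L, μ, hp, hp1, hL, hμ, f₁, f₂, h1, h2, h3, h4, h5, h6, h7⟩ := f_ASM hB
  have hμ0 : 0 < μ := by linarith
  have hM := f_BS (crv p L) (4 / 5 * p) (by positivity) (f_GEO.conts p L hp hp1 hL)
    (fun s s' => f_GEO.low p L s s' hp hp1 hL) μ hμ0 f₁ f₂ h1 h2 h3 h4 h5 h6 h7
  set r : ℝ := (1 / μ) / α with hr
  have hr0 : 0 < r := by positivity
  have h8 := hM.scale (f_GEO.conts p L hp hp1 hL) hr0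
  rw [scv_crv p L r hr0] at h8
  have e1 : 1 / μ / r = α := by
    rw [hr]; field_simp
  rw [e1] at h8
  refine ⟨crv p (r * L), -1 / r ^ 2, f_ADM p (r * L) hp hp1 (by positivity), ?_, h8⟩
  rw [div_lt_iff₀ (by positivity)]
  have e2 : α * r = 1 / μ := by rw [hr]; field_simp
  have e3 : -(α ^ 2 / 4) * r ^ 2 = -((α * r) ^ 2 / 4) := by ring
  rw [e3, e2]
  have h9 : 1 / μ < 2 := by
    rw [div_lt_iff₀ hμ0]; linarith
  have h10 : 0 < 1 / μ := by positivity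
  nlinarith

/-- the gradient and the trace are determined by the function -/
theorem trace_unique {γ : ℝ → E2} (hγ : Admissible γ) {ψ : E2 → ℂ} {g g' : Fin 2 → E2 → ℂ}
    {t t' : ℝ → ℂ} (h : SobolevTrace γ ψ g t) (h' : SobolevTrace γ ψ g' t') :
    (∀ i, g i =ᵐ[volume] g' i) ∧ t =ᵐ[volume] t' := by
  obtain ⟨c, hc, -, hlow⟩ := hγ.a1
  have hK := f_KB.kC γ c hc hγ.cont hlow
  have hinj : ∀ s s', s ≠ s' → γ s ≠ γ s' := by
    intro s s' hs h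
    have h1 := hlow s s'
    rw [h, sub_self, norm_zero] at h1
    have h2 : 0 < |s - s'| := abs_pos.2 (sub_ne_zero.2 hs)
    nlinarith [mul_pos hc h2]
  have hL1 := comp_int hγ.cont hc hlow
  have hL := comp_memLp hγ.cont hc hlow
  obtain ⟨Θ, a0, a1, a2⟩ := of_triple hγ.cont hinj hK f_K1.nonneg hL1 hL h
  obtain ⟨Θ', b0, b1, b2⟩ := of_triple hγ.cont hinj hK f_K1.nonneg hL1 hL h'
  have h0 : A0 (Θ - Θ') = 0 := by
    rw [map_sub, sub_eq_zero]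
    exact Lp.ext (a0.trans b0.symm)
  have h1 : Θ = Θ' := sub_eq_zero.1 (A0_inj _ h0)
  subst h1
  exact ⟨fun i => (a1 i).symm.trans (b1 i), a2.symm.trans b2⟩

end Pool.Agent.Helper94.LK
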